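import Mathlib

set_option autoImplicit false

/-! Counting on finite product spaces: fibre lemma, chain lemma and a Rosenfeld-type
counting argument. -/

namespace Pool.Agent.H205R2.NR

open Finset Classical

variable {X : Type} [Fintype X] [Inhabited X]

/-- extension of a finite sequence to `ℕ` -/
def ext {R : ℕ} (ω : Fin R → X) : ℕ → X := fun i => if h : i < R then ω ⟨i, h⟩ else default

omit [Fintype X] in
lemma ext_update {R : ℕ} (ω : Fin R → X) (v : ℕ) (hv : v < R) (y : X) :
    ext (Function.update ω ⟨v, hv⟩ y) = Function.update (ext ω) v y := by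
  funext i
  by_cases hi : i = v
  · subst hi
    simp [ext, hv]
  · rw [Function.update_of_ne hi]
    unfold ext
    by_cases h : i < R
    · rw [dif_pos h, dif_pos h, Function.update_of_ne]
      intro hc
      exact hi (congrArg Fin.val hc)
    · rw [dif_neg h, dif_neg h]

/-- number of sequences of length `R` whose extension satisfies `P` -/
noncomputable def cnt (R : ℕ) (P : (ℕ → X) → Prop) : ℝ :=
  (((univ : Finset (Fin R → X)).filter (fun ω => P (ext ω))).card : ℝ)

/-- number of elements of `X` satisfying `Q` -/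
noncomputable def num (Q : X → Prop) : ℝ := (((univ : Finset X).filter Q).card : ℝ)

lemma cnt_eq {R : ℕ} (P : (ℕ → X) → Prop) (s : Finset (Fin R → X))
    (h : ∀ ω, ω ∈ s ↔ P (ext ω)) : cnt R P = s.card := by
  unfold cnt
  congr 2
  ext ω
  simp [h]

omit [Inhabited X] in
lemma num_eq (Q : X → Prop) (s : Finset X) (h : ∀ y, y ∈ s ↔ Q y) : num Q = s.card := by
  unfold num
  congr 2
  ext ω
  simp [h]

/-- the set of outcomes -/
noncomputable def oc (R : ℕ) (P : (ℕ → X) → Prop) : Finset (Fin R → X) :=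
  (univ : Finset (Fin R → X)).filter (fun ω => P (ext ω))

lemma mem_oc {R : ℕ} (P : (ℕ → X) → Prop) (ω : Fin R → X) : ω ∈ oc R P ↔ P (ext ω) := by
  simp [oc]

lemma cnt_oc {R : ℕ} (P : (ℕ → X) → Prop) : cnt R P = (oc R P).card := rfl

/-- the set of values -/
noncomputable def ov (Q : X → Prop) : Finset X := (univ : Finset X).filter Q

omit [Inhabited X] in
lemma mem_ov (Q : X → Prop) (y : X) : y ∈ ov Q ↔ Q y := by
  simp [ov]

omit [Inhabited X] in
lemma num_ov (Q : X → Prop) : num Q = (ov Q).card := rfl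

omit [Inhabited X] in
lemma num_mono {Q Q' : X → Prop} (h : ∀ y, Q y → Q' y) : num Q ≤ num Q' := by
  rw [num_ov, num_ov]
  exact_mod_cast Finset.card_le_card (fun y hy => by
    rw [mem_ov] at hy ⊢
    exact h y hy)

omit [Inhabited X] in
lemma num_or (Q Q' : X → Prop) : num (fun y => Q y ∨ Q' y) ≤ num Q + num Q' := by
  rw [num_eq (fun y => Q y ∨ Q' y) (ov Q ∪ ov Q') (by intro y; simp [mem_ov]), num_ov, num_ov]
  exact_mod_cast Finset.card_union_le _ _

omit [Inhabited X] in
lemma num_exists {ι : Type} (I : Finset ι) (Q : ι → X → Prop) :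
    num (fun y => ∃ i ∈ I, Q i y) ≤ ∑ i ∈ I, num (Q i) := by
  rw [num_eq (fun y => ∃ i ∈ I, Q i y) (I.biUnion (fun i => ov (Q i)))
    (by intro y; simp [mem_ov])]
  have : (∑ i ∈ I, num (Q i)) = ((∑ i ∈ I, (ov (Q i)).card : ℕ) : ℝ) := by
    push_cast
    rfl
  rw [this]
  exact_mod_cast Finset.card_biUnion_le

lemma cnt_mono {R : ℕ} {P Q : (ℕ → X) → Prop} (h : ∀ ω, P ω → Q ω) : cnt R P ≤ cnt R Q := by
  rw [cnt_oc, cnt_oc]
  exact_mod_cast Finset.card_le_card (fun y hy => by
    rw [mem_oc] at hy ⊢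
    exact h _ hy)

lemma cnt_nonneg {R : ℕ} (P : (ℕ → X) → Prop) : 0 ≤ cnt R P := by
  unfold cnt; positivity

lemma cnt_or {R : ℕ} (P Q : (ℕ → X) → Prop) :
    cnt R (fun ω => P ω ∨ Q ω) ≤ cnt R P + cnt R Q := by
  rw [cnt_eq (fun ω => P ω ∨ Q ω) (oc R P ∪ oc R Q) (by intro y; simp [mem_oc]), cnt_oc, cnt_oc]
  exact_mod_cast Finset.card_union_le _ _

lemma cnt_exists {R : ℕ} {ι : Type} (I : Finset ι) (P : ι → (ℕ → X) → Prop) :
    cnt R (fun ω => ∃ i ∈ I, P i ω) ≤ ∑ i ∈ I, cnt R (P i) := by
  rw [cnt_eq (fun ω => ∃ i ∈ I, P i ω) (I.biUnion (fun i => oc R (P i)))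
    (by intro y; simp [mem_oc])]
  have : (∑ i ∈ I, cnt R (P i)) = ((∑ i ∈ I, (oc R (P i)).card : ℕ) : ℝ) := by
    push_cast
    rfl
  rw [this]
  exact_mod_cast Finset.card_biUnion_le

/-- Fibre lemma. -/
lemma fiber {R : ℕ} (v : ℕ) (hv : v < R) (P G : (ℕ → X) → Prop)
    (hP : ∀ ω y, P ω → P (Function.update ω v y)) (ε : ℝ)
    (hG : ∀ ω, P ω → num (fun y => G (Function.update ω v y)) ≤ ε * Fintype.card X) :
    cnt R (fun ω => P ω ∧ G ω) ≤ ε * cnt R P := by
  classical
  set A := oc R (fun ω : ℕ → X => P ω ∧ G ω) with hA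
  set B := oc R P with hB
  set S : Finset ((Fin R → X) × X) :=
    (B ×ˢ (univ : Finset X)).filter (fun p => G (Function.update (ext p.1) v p.2)) with hS
  have hXpos : (0 : ℝ) < Fintype.card X := by
    exact_mod_cast Fintype.card_pos
  -- lower bound
  have h1 : A.card * Fintype.card X ≤ S.card := by
    rw [← Finset.card_univ, ← Finset.card_product]
    refine Finset.card_le_card_of_injOn
      (fun p => (Function.update p.1 ⟨v, hv⟩ p.2, p.1 ⟨v, hv⟩)) ?_ ?_
    · intro p hp
      simp only [Finset.coe_product, Set.mem_prod, Finset.mem_coe] at hp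
      have hp1 := hp.1
      rw [hA, mem_oc] at hp1
      rw [Finset.mem_coe, hS, Finset.mem_filter, Finset.mem_product]
      refine ⟨⟨?_, Finset.mem_univ _⟩, ?_⟩
      · rw [hB, mem_oc]
        show P (ext (Function.update p.1 ⟨v, hv⟩ p.2))
        rw [ext_update]
        exact hP _ _ hp1.1
      · show G (Function.update (ext (Function.update p.1 ⟨v, hv⟩ p.2)) v (p.1 ⟨v, hv⟩))
        rw [ext_update, Function.update_idem]
        have : Function.update (ext p.1) v (p.1 ⟨v, hv⟩) = ext p.1 := by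
          conv_rhs => rw [← Function.update_eq_self v (ext p.1)]
          congr 1
          simp [ext, hv]
        rw [this]
        exact hp1.2
    · intro p hp q hq hpq
      simp only [Prod.mk.injEq] at hpq
      obtain ⟨e1, e2⟩ := hpq
      have e3 : p.2 = q.2 := by
        have := congrFun e1 ⟨v, hv⟩
        simpa using this
      have e4 : p.1 = q.1 := by
        funext i
        by_cases hi : i = ⟨v, hv⟩
        · rw [hi]; exact e2
        · have := congrFun e1 i
          rwa [Function.update_of_ne hi, Function.update_of_ne hi] at this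
      exact Prod.ext e4 e3
  -- upper bound
  have h2 : (S.card : ℝ) ≤ ∑ ω ∈ B, ε * Fintype.card X := by
    have : S.card = ∑ ω ∈ B, (ov (fun y => G (Function.update (ext ω) v y))).card := by
      rw [hS, Finset.card_filter, Finset.sum_product]
      refine Finset.sum_congr rfl (fun ω _ => ?_)
      rw [ov, Finset.card_filter]
    rw [this]
    push_cast
    refine Finset.sum_le_sum (fun ω hω => ?_)
    rw [hB, mem_oc] at hω
    exact hG _ hω
  rw [Finset.sum_const, nsmul_eq_mul] at h2
  have h3 : (A.card : ℝ) * Fintype.card X ≤ (B.card : ℝ) * (ε * Fintype.card X) := by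
    refine le_trans ?_ h2
    exact_mod_cast h1
  have h4 : (A.card : ℝ) ≤ ε * B.card := by
    have : (A.card : ℝ) * Fintype.card X ≤ (ε * B.card) * Fintype.card X := by
      calc _ ≤ _ := h3
        _ = _ := by ring
    exact le_of_mul_le_mul_right this hXpos
  exact h4

/-- Chain lemma. -/
lemma chain {R : ℕ} (P : (ℕ → X) → Prop) (ε : ℝ) (hε : 0 ≤ ε) (F : ℕ → (ℕ → X) → Prop)
    (V : Finset ℕ) (hV : ∀ v ∈ V, v < R)
    (hPV : ∀ v ∈ V, ∀ ω y, P ω → P (Function.update ω v y))
    (hF : ∀ v ∈ V, ∀ v' ∈ V, v < v' → ∀ ω y, F v ω → F v (Function.update ω v' y))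
    (hG : ∀ v ∈ V, ∀ ω, num (fun y => F v (Function.update ω v y)) ≤ ε * Fintype.card X) :
    cnt R (fun ω => P ω ∧ ∀ v ∈ V, F v ω) ≤ ε ^ V.card * cnt R P := by
  induction V using Finset.induction_on_max with
  | empty => simp
  | insert a s hlt ih =>
    have has : a ∉ s := fun h => lt_irrefl _ (hlt a h)
    rw [Finset.card_insert_of_notMem has, pow_succ]
    have ih' := ih (fun v hv => hV v (Finset.mem_insert_of_mem hv))
      (fun v hv => hPV v (Finset.mem_insert_of_mem hv))
      (fun v hv v' hv' => hF v (Finset.mem_insert_of_mem hv) v' (Finset.mem_insert_of_mem hv'))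
      (fun v hv => hG v (Finset.mem_insert_of_mem hv))
    have h1 : cnt R (fun ω => P ω ∧ ∀ v ∈ insert a s, F v ω) ≤
        cnt R (fun ω => (P ω ∧ ∀ v ∈ s, F v ω) ∧ F a ω) := by
      refine cnt_mono (fun ω h => ?_)
      exact ⟨⟨h.1, fun v hv => h.2 v (Finset.mem_insert_of_mem hv)⟩,
        h.2 a (Finset.mem_insert_self _ _)⟩
    have h2 : cnt R (fun ω => (P ω ∧ ∀ v ∈ s, F v ω) ∧ F a ω) ≤
        ε * cnt R (fun ω => P ω ∧ ∀ v ∈ s, F v ω) := by
      refine fiber a (hV a (Finset.mem_insert_self _ _)) _ _ ?_ ε ?_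
      · intro ω y h
        exact ⟨hPV a (Finset.mem_insert_self _ _) ω y h.1, fun v hv =>
          hF v (Finset.mem_insert_of_mem hv) a (Finset.mem_insert_self _ _) (hlt v hv) ω y
            (h.2 v hv)⟩
      · intro ω _
        exact hG a (Finset.mem_insert_self _ _) ω
    calc _ ≤ _ := h1
      _ ≤ _ := h2
      _ ≤ ε * (ε ^ s.card * cnt R P) := by gcongr
      _ = _ := by ring

/-- Rosenfeld-type counting. -/
lemma rosenfeld {R : ℕ} (Av : ℕ → (ℕ → X) → Prop) (Bad : ℕ → ℕ → (ℕ → X) → Prop)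
    (h0 : ∀ ω, Av 0 ω)
    (hA : ∀ i, i < R → ∀ ω, Av i ω → (∀ lo, lo ≤ i → ¬ Bad lo i ω) → Av (i + 1) ω)
    (hmono : ∀ i j, i ≤ j → ∀ ω, Av j ω → Av i ω)
    (p : ℕ → ℝ)
    (hp : ∀ i, i < R → ∀ lo, lo ≤ i →
      cnt R (fun ω => Av lo ω ∧ Bad lo i ω) ≤ p (i - lo) * cnt R (Av lo))
    (hp0 : ∀ d, 0 ≤ p d)
    (hs : ∀ i, ∑ d ∈ range (i + 1), 2 ^ d * p d ≤ 1 / 2) :
    ∃ ω : ℕ → X, Av R ω := by
  have key : ∀ i, i ≤ R → 0 < cnt R (Av i) ∧ ∀ j, j ≤ i →
      cnt R (Av j) ≤ 2 ^ (i - j) * cnt R (Av i) := by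
    intro i
    induction i with
    | zero =>
      intro _
      refine ⟨?_, ?_⟩
      · rw [cnt_oc]
        exact_mod_cast Finset.card_pos.2 ⟨fun _ => default, by rw [mem_oc]; exact h0 _⟩
      · intro j hj
        have : j = 0 := by omega
        subst this
        simp
    | succ i ih =>
      intro hi
      obtain ⟨hpos, hj⟩ := ih (by omega)
      have hstep : cnt R (Av i) ≤ 2 * cnt R (Av (i + 1)) := by
        have e1 : cnt R (Av i) ≤ cnt R (Av (i + 1)) +
            ∑ lo ∈ range (i + 1), cnt R (fun ω => Av lo ω ∧ Bad lo i ω) := by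
          have : cnt R (Av i) ≤ cnt R (fun ω => Av (i + 1) ω ∨
              ∃ lo ∈ range (i + 1), (Av lo ω ∧ Bad lo i ω)) := by
            refine cnt_mono (fun ω h => ?_)
            by_cases hb : ∀ lo, lo ≤ i → ¬ Bad lo i ω
            · exact Or.inl (hA i (by omega) ω h hb)
            · push Not at hb
              obtain ⟨lo, hlo, hbad⟩ := hb
              exact Or.inr ⟨lo, Finset.mem_range.2 (by omega), hmono lo i hlo ω h, hbad⟩
          refine this.trans ((cnt_or _ _).trans ?_)
          gcongr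
          exact cnt_exists _ _
        have e2 : ∑ lo ∈ range (i + 1), cnt R (fun ω => Av lo ω ∧ Bad lo i ω) ≤
            ∑ lo ∈ range (i + 1), (2 ^ (i - lo) * p (i - lo)) * cnt R (Av i) := by
          refine Finset.sum_le_sum (fun lo hlo => ?_)
          rw [Finset.mem_range] at hlo
          have := hp i (by omega) lo (by omega)
          calc _ ≤ p (i - lo) * cnt R (Av lo) := this
            _ ≤ p (i - lo) * (2 ^ (i - lo) * cnt R (Av i)) := by
                gcongr
                · exact hp0 _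
                · exact hj lo (by omega)
            _ = _ := by ring
        have e3 : ∑ lo ∈ range (i + 1), (2 ^ (i - lo) * p (i - lo)) * cnt R (Av i) =
            (∑ d ∈ range (i + 1), 2 ^ d * p d) * cnt R (Av i) := by
          rw [← Finset.sum_mul]
          congr 1
          rw [← Finset.sum_range_reflect]
          refine Finset.sum_congr rfl (fun lo hlo => ?_)
          rw [Finset.mem_range] at hlo
          have : i - (i + 1 - 1 - lo) = lo := by omega
          rw [this]
        have e4 := hs i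
        have e5 : (∑ d ∈ range (i + 1), 2 ^ d * p d) * cnt R (Av i) ≤ 1 / 2 * cnt R (Av i) := by
          gcongr
        linarith
      refine ⟨by linarith, ?_⟩
      intro j hji
      rcases Nat.lt_or_ge i j with h | h
      · have : j = i + 1 := by omega
        subst this
        simp
      · have e1 := hj j h
        have e2 : i + 1 - j = (i - j) + 1 := by omega
        rw [e2, pow_succ]
        calc _ ≤ _ := e1
          _ ≤ 2 ^ (i - j) * (2 * cnt R (Av (i + 1))) := by gcongr
          _ = _ := by ring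
  have h := (key R le_rfl).1
  rw [cnt_oc] at h
  have h' : 0 < (oc R (Av R)).card := by
    exact_mod_cast h
  obtain ⟨ω, hω⟩ := Finset.card_pos.1 h'
  rw [mem_oc] at hω
  exact ⟨ext ω, hω⟩

end Pool.Agent.H205R2.NR
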