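import Mathlib
import Pool.Agent.H205R2.NR.Count

set_option autoImplicit false

/-! Square-free words over a 16 letter alphabet. -/

namespace Pool.Agent.H205R2.NR

open Finset Classical

lemma num_single {X : Type} [Fintype X] (a : X) : num (fun y => a = y) = 1 := by
  rw [num_eq (fun y => a = y) {a} (by intro y; simp [eq_comm])]
  simp

lemma geo_half (n : ℕ) : ∑ d ∈ range n, (2 : ℝ) ^ d * (1 / 4) ^ (d + 1) = 1 / 2 * (1 - (1 / 2) ^ n) := by
  induction n with
  | zero => simp
  | succ n ih =>
    rw [Finset.sum_range_succ, ih]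
    have : (2 : ℝ) ^ n * (1 / 4) ^ (n + 1) = 1 / 4 * (1 / 2) ^ n := by
      rw [pow_succ, show (1 / 2 : ℝ) ^ n = (2 * (1 / 4)) ^ n by norm_num, mul_pow]
      ring
    rw [this, pow_succ]
    ring

/-- For every `R` there is a word over 16 letters without squares in the first `R` positions. -/
theorem exists_sqfree (R : ℕ) : ∃ u : ℕ → Fin 16, ∀ i e, 0 < e → i + 2 * e ≤ R →
    ∃ j, j < e ∧ u (i + j) ≠ u (i + e + j) := by
  refine rosenfeld (X := Fin 16) (R := R)
    (fun m ω => ∀ i e, 0 < e → i + 2 * e ≤ m → ∃ j, j < e ∧ ω (i + j) ≠ ω (i + e + j))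
    (fun lo i ω => ∃ e, 0 < e ∧ lo + 2 * e = i + 1 ∧ ∀ j, j < e → ω (lo + j) = ω (lo + e + j))
    ?_ ?_ ?_ (fun d => (1 / 4) ^ (d + 1)) ?_ ?_ ?_
  · intro ω i e he hi
    omega
  · intro m _ ω hm hb i e he hi
    rcases Nat.lt_or_ge m (i + 2 * e) with h | h
    · by_contra hc
      push Not at hc
      exact hb i (by omega) ⟨e, he, by omega, hc⟩
    · exact hm i e he h
  · intro i j hij ω h i' e he hi
    exact h i' e he (by omega)
  · intro i hi lo hlo
    by_cases hex : ∃ e, 0 < e ∧ lo + 2 * e = i + 1
    · obtain ⟨e, he, hei⟩ := hex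
      have h1 : cnt R (fun ω : ℕ → Fin 16 =>
          (∀ i e, 0 < e → i + 2 * e ≤ lo → ∃ j, j < e ∧ ω (i + j) ≠ ω (i + e + j)) ∧
          ∃ e, 0 < e ∧ lo + 2 * e = i + 1 ∧ ∀ j, j < e → ω (lo + j) = ω (lo + e + j)) ≤
          cnt R (fun ω : ℕ → Fin 16 =>
          (∀ i e, 0 < e → i + 2 * e ≤ lo → ∃ j, j < e ∧ ω (i + j) ≠ ω (i + e + j)) ∧
          ∀ v ∈ Finset.Ico (lo + e) (lo + 2 * e), ω (v - e) = ω v) := by
        refine cnt_mono (fun ω h => ⟨h.1, ?_⟩)
        obtain ⟨e', he', hei', h⟩ := h.2
        have : e' = e := by omega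
        subst this
        intro v hv
        rw [Finset.mem_Ico] at hv
        have := h (v - lo - e') (by omega)
        have e1 : lo + (v - lo - e') = v - e' := by omega
        have e2 : lo + e' + (v - lo - e') = v := by omega
        rw [e1, e2] at this
        exact this
      refine h1.trans ?_
      have h2 := chain (R := R) (X := Fin 16)
        (fun ω => ∀ i e, 0 < e → i + 2 * e ≤ lo → ∃ j, j < e ∧ ω (i + j) ≠ ω (i + e + j))
        (1 / 16) (by norm_num) (fun v ω => ω (v - e) = ω v)
        (Finset.Ico (lo + e) (lo + 2 * e)) ?_ ?_ ?_ ?_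
      · refine h2.trans ?_
        rw [Nat.card_Ico]
        have e1 : lo + 2 * e - (lo + e) = e := by omega
        have e2 : i - lo + 1 = 2 * e := by omega
        rw [e1, e2, pow_mul]
        norm_num
      · intro v hv
        rw [Finset.mem_Ico] at hv
        omega
      · intro v hv ω y h i' e' he' hi'
        rw [Finset.mem_Ico] at hv
        obtain ⟨j, hj, hne⟩ := h i' e' he' hi'
        refine ⟨j, hj, ?_⟩
        rw [Function.update_of_ne (by omega), Function.update_of_ne (by omega)]
        exact hne
      · intro v hv v' hv' hlt ω y h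
        rw [Finset.mem_Ico] at hv hv'
        show Function.update ω v' y (v - e) = Function.update ω v' y v
        rw [Function.update_of_ne (by omega), Function.update_of_ne (by omega)]
        exact h
      · intro v hv ω
        rw [Finset.mem_Ico] at hv
        have : (fun y : Fin 16 => (fun v (ω : ℕ → Fin 16) => ω (v - e) = ω v) v
            (Function.update ω v y)) = fun y => ω (v - e) = y := by
          funext y
          simp only
          rw [Function.update_of_ne (by omega), Function.update_self]
        rw [this, num_single]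
        simp
    · have h1 : cnt R (fun ω : ℕ → Fin 16 =>
          (∀ i e, 0 < e → i + 2 * e ≤ lo → ∃ j, j < e ∧ ω (i + j) ≠ ω (i + e + j)) ∧
          ∃ e, 0 < e ∧ lo + 2 * e = i + 1 ∧ ∀ j, j < e → ω (lo + j) = ω (lo + e + j)) = 0 := by
        rw [cnt_eq _ ∅]
        · simp
        · intro ω
          simp only [Finset.notMem_empty, false_iff, not_and, not_exists]
          intro _ e he hei
          exact absurd ⟨e, he, hei⟩ hex
      rw [h1]
      exact mul_nonneg (by positivity) (cnt_nonneg _)
  · intro d
    positivity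
  · intro i
    rw [geo_half]
    have : (0 : ℝ) ≤ (1 / 2) ^ (i + 1) := by positivity
    linarith

end Pool.Agent.H205R2.NR
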