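import Mathlib
import Pool.Agent.H205R2.NR.Count

set_option autoImplicit false

/-! Chernoff bound for random colourings, injective selections, diverse selections. -/

namespace Pool.Agent.H205R2.NR

open Finset Classical

/-- the classes of a partition: 48 types and one reserved class `none` -/
abbrev Lt : Type := Option (Fin 3 × Fin 16)

lemma card_Lt : Fintype.card Lt = 49 := by decide

variable {C : Type} [Fintype C]

lemma chernoff (Λ : Finset C) (a : Lt) (h : ℕ) (hΛ : 200 * h ≤ Λ.card) :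
    num (X := C → Lt) (fun τ => (Λ.filter (fun x => τ x = a)).card < h)
      ≤ (1 / 2) ^ h * Fintype.card (C → Lt) := by
  set g : C → Lt → ℝ := fun x b => if x ∈ Λ ∧ b = a then 1 / 2 else 1 with hg
  have key : ∑ τ : C → Lt, ∏ x, g x (τ x) = ∏ x, ∑ b, g x b := by
    rw [Finset.prod_univ_sum, Fintype.piFinset_univ]
  have e1 : ∀ τ : C → Lt, ∏ x, g x (τ x) = (1 / 2) ^ (Λ.filter (fun x => τ x = a)).card := by
    intro τ
    have : ∀ x, g x (τ x) = if x ∈ Λ.filter (fun x => τ x = a) then (1 / 2 : ℝ) else 1 := by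
      intro x
      simp only [hg, Finset.mem_filter]
    rw [Finset.prod_congr rfl (fun x _ => this x), Finset.prod_ite_mem, Finset.univ_inter,
      Finset.prod_const]
  have e2 : ∀ x, ∑ b, g x b = if x ∈ Λ then (97 / 2 : ℝ) else 49 := by
    intro x
    by_cases hx : x ∈ Λ
    · rw [if_pos hx]
      have : ∀ b, g x b = 1 - (if b = a then (1 / 2 : ℝ) else 0) := by
        intro b
        simp only [hg, hx, true_and]
        split_ifs <;> norm_num
      rw [Finset.sum_congr rfl (fun b _ => this b), Finset.sum_sub_distrib, Finset.sum_ite_eq']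
      simp only [Finset.sum_const, Finset.card_univ, card_Lt, Finset.mem_univ, if_true]
      norm_num
    · rw [if_neg hx]
      have : ∀ b, g x b = 1 := by
        intro b
        simp only [hg, hx, false_and, if_false]
      rw [Finset.sum_congr rfl (fun b _ => this b)]
      simp only [Finset.sum_const, Finset.card_univ, card_Lt]
      norm_num
  have e3 : ∏ x, ∑ b, g x b = (97 / 98) ^ Λ.card * Fintype.card (C → Lt) := by
    rw [Finset.prod_congr rfl (fun x _ => e2 x)]
    have : ∀ x : C, (if x ∈ Λ then (97 / 2 : ℝ) else 49) =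
        (if x ∈ Λ then (97 / 98 : ℝ) else 1) * 49 := by
      intro x
      split_ifs <;> norm_num
    rw [Finset.prod_congr rfl (fun x _ => this x), Finset.prod_mul_distrib, Finset.prod_ite_mem,
      Finset.univ_inter, Finset.prod_const, Finset.prod_const, Finset.card_univ,
      Fintype.card_fun, card_Lt]
    push_cast
    ring
  have e4 : num (X := C → Lt) (fun τ => (Λ.filter (fun x => τ x = a)).card < h) * (1 / 2) ^ h ≤
      ∑ τ : C → Lt, ∏ x, g x (τ x) := by
    rw [num_ov]
    calc _ = ∑ τ ∈ ov (fun τ : C → Lt => (Λ.filter (fun x => τ x = a)).card < h),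
          (1 / 2 : ℝ) ^ h := by
            rw [Finset.sum_const, nsmul_eq_mul]
      _ ≤ ∑ τ ∈ ov (fun τ : C → Lt => (Λ.filter (fun x => τ x = a)).card < h),
          ∏ x, g x (τ x) := by
            refine Finset.sum_le_sum (fun τ hτ => ?_)
            rw [mem_ov] at hτ
            rw [e1]
            exact pow_le_pow_of_le_one (by norm_num) (by norm_num) hτ.le
      _ ≤ _ := by
            refine Finset.sum_le_sum_of_subset_of_nonneg (Finset.subset_univ _)
              (fun τ _ _ => ?_)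
            rw [e1]
            positivity
  rw [key, e3] at e4
  have e5 : (97 / 98 : ℝ) ^ Λ.card ≤ (1 / 4) ^ h := by
    calc (97 / 98 : ℝ) ^ Λ.card ≤ (97 / 98 : ℝ) ^ (200 * h) :=
          pow_le_pow_of_le_one (by norm_num) (by norm_num) hΛ
      _ = ((97 / 98 : ℝ) ^ 200) ^ h := by rw [pow_mul]
      _ ≤ (1 / 4) ^ h := by
          gcongr
          norm_num
  have e6 : num (X := C → Lt) (fun τ => (Λ.filter (fun x => τ x = a)).card < h) * (1 / 2) ^ h ≤
      ((1 / 2) ^ h * Fintype.card (C → Lt)) * (1 / 2) ^ h := by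
    refine e4.trans ?_
    have : ((1 / 2 : ℝ) ^ h * Fintype.card (C → Lt)) * (1 / 2) ^ h =
        (1 / 4) ^ h * Fintype.card (C → Lt) := by
      rw [show (1 / 4 : ℝ) = (1 / 2) * (1 / 2) by norm_num, mul_pow]
      ring
    rw [this]
    gcongr
  exact le_of_mul_le_mul_right e6 (by positivity)

omit [Fintype C] in
lemma inj_count (t : ℕ) : ∀ (k : ℕ) (Γ : Fin k → Finset C), (∀ j, t + k ≤ (Γ j).card) →
    t ^ k ≤ ((Fintype.piFinset Γ).filter (fun g => Function.Injective g)).card := by
  intro k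
  induction k with
  | zero =>
    intro Γ _
    rw [pow_zero]
    refine Finset.card_pos.2 ⟨fun j => j.elim0, ?_⟩
    rw [Finset.mem_filter, Fintype.mem_piFinset]
    exact ⟨fun j => j.elim0, fun j => j.elim0⟩
  | succ k ih =>
    intro Γ hΓ
    set I := (Fintype.piFinset (fun j : Fin k => Γ j.succ)).filter
      (fun g => Function.Injective g) with hI
    have h1 : t ^ k ≤ I.card := ih (fun j => Γ j.succ) (fun j => by
      have := hΓ j.succ
      omega)
    set S : Finset ((_ : Fin k → C) × C) := I.sigma (fun g => Γ 0 \ univ.image g) with hS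
    have h2 : t ^ (k + 1) ≤ S.card := by
      rw [hS, Finset.card_sigma]
      calc t ^ (k + 1) = t ^ k * t := pow_succ _ _
        _ ≤ I.card * t := Nat.mul_le_mul_right _ h1
        _ = ∑ g ∈ I, t := by rw [Finset.sum_const, smul_eq_mul]
        _ ≤ _ := by
            refine Finset.sum_le_sum (fun g _ => ?_)
            have a1 := Finset.le_card_sdiff (univ.image g) (Γ 0)
            have a2 : (univ.image g).card ≤ k := by
              refine Finset.card_image_le.trans ?_
              simp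
            have a3 := hΓ 0
            omega
    refine h2.trans ?_
    refine Finset.card_le_card_of_injOn (fun p => (Fin.cons p.2 p.1 : Fin (k + 1) → C)) ?_ ?_
    · intro p hp
      rw [Finset.mem_coe, hS, Finset.mem_sigma, hI, Finset.mem_filter, Fintype.mem_piFinset,
        Finset.mem_sdiff] at hp
      obtain ⟨⟨p1, p2⟩, p3, p4⟩ := hp
      rw [Finset.mem_coe, Finset.mem_filter, Fintype.mem_piFinset]
      refine ⟨?_, ?_⟩
      · intro j
        refine Fin.cases ?_ ?_ j
        · simpa using p3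
        · intro j'
          simpa using p1 j'
      · rw [Fin.cons_injective_iff]
        refine ⟨?_, p2⟩
        rintro ⟨j, hj⟩
        exact p4 (Finset.mem_image.2 ⟨j, Finset.mem_univ _, hj⟩)
    · rintro ⟨g, c⟩ _ ⟨g', c'⟩ _ h
      simp only at h
      have := Fin.cons_inj.1 h
      obtain ⟨e1, e2⟩ := this
      subst e1 e2
      rfl

/-- injective selections from the lists `Λ` -/
noncomputable def Inj {k : ℕ} (Λ : Fin k → Finset C) : Finset (Fin k → C) :=
  (Fintype.piFinset Λ).filter (fun g => Function.Injective g)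

omit [Fintype C] in
lemma mem_Inj {k : ℕ} (Λ : Fin k → Finset C) (g : Fin k → C) :
    g ∈ Inj Λ ↔ (∀ j, g j ∈ Λ j) ∧ Function.Injective g := by
  rw [Inj, Finset.mem_filter, Fintype.mem_piFinset]

omit [Fintype C] in
/-- few injective selections avoid the reserved class completely -/
lemma inj_bad {k h : ℕ} (hk : 2 * k ≤ h) (Λ : Fin k → Finset C) (hΛ : ∀ j, (Λ j).card = 200 * h)
    (τ : C → Lt) (hτ : ∀ j, h ≤ ((Λ j).filter (fun x => τ x = none)).card) :
    (((Inj Λ).filter (fun g => ∃ j, τ (g j) ≠ none)).card : ℝ) ≤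
      (1 - (1 / 512) ^ k) * (Inj Λ).card := by
  have h1 : (h - k) ^ k ≤ ((Inj Λ).filter (fun g => ¬ ∃ j, τ (g j) ≠ none)).card := by
    refine (inj_count (h - k) k (fun j => (Λ j).filter (fun x => τ x = none)) (fun j => by
      have := hτ j
      omega)).trans ?_
    refine Finset.card_le_card (fun g hg => ?_)
    rw [Finset.mem_filter, Fintype.mem_piFinset] at hg
    rw [Finset.mem_filter, mem_Inj]
    refine ⟨⟨fun j => (Finset.mem_filter.1 (hg.1 j)).1, hg.2⟩, ?_⟩
    push Not
    exact fun j => (Finset.mem_filter.1 (hg.1 j)).2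
  have h2 : ((Inj Λ).filter (fun g => ∃ j, τ (g j) ≠ none)).card +
      ((Inj Λ).filter (fun g => ¬ ∃ j, τ (g j) ≠ none)).card = (Inj Λ).card :=
    Finset.card_filter_add_card_filter_not _
  have h3 : (Inj Λ).card ≤ (200 * h) ^ k := by
    refine (Finset.card_filter_le _ _).trans ?_
    rw [Fintype.card_piFinset, Finset.prod_congr rfl (fun j _ => hΛ j), Finset.prod_const,
      Finset.card_univ, Fintype.card_fin]
  have h4 : (1 / 512 : ℝ) ^ k * (Inj Λ).card ≤ ((h - k : ℕ) : ℝ) ^ k := by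
    calc (1 / 512 : ℝ) ^ k * (Inj Λ).card ≤ (1 / 512 : ℝ) ^ k * ((200 * h : ℕ) : ℝ) ^ k := by
          gcongr
          exact_mod_cast h3
      _ = ((200 / 512 : ℝ) * h) ^ k := by
          rw [← mul_pow]
          congr 1
          push_cast
          ring
      _ ≤ ((h - k : ℕ) : ℝ) ^ k := by
          refine pow_le_pow_left₀ (by positivity) ?_ k
          rw [Nat.cast_sub (by omega)]
          have : (2 * k : ℝ) ≤ h := by exact_mod_cast hk
          have : (0 : ℝ) ≤ h := by positivity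
          linarith
  have h5 : (((h - k : ℕ) : ℝ)) ^ k ≤
      (((Inj Λ).filter (fun g => ¬ ∃ j, τ (g j) ≠ none)).card : ℝ) := by exact_mod_cast h1
  have h6 : (((Inj Λ).filter (fun g => ∃ j, τ (g j) ≠ none)).card : ℝ) +
      (((Inj Λ).filter (fun g => ¬ ∃ j, τ (g j) ≠ none)).card : ℝ) = (Inj Λ).card := by
    exact_mod_cast h2
  linarith

lemma pow_bound (k h m : ℕ) (hm : 512 ^ k * h ≤ m) :
    (1 - (1 / 512 : ℝ) ^ k) ^ m ≤ (1 / 2) ^ h := by
  set q : ℝ := (1 / 512) ^ k with hq
  have hq0 : 0 ≤ q := by positivity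
  have hq1 : q ≤ 1 := pow_le_one₀ (by norm_num) (by norm_num)
  have a1 : (1 - q) ^ m ≤ Real.exp (-(q * m)) := by
    have : 1 - q ≤ Real.exp (-q) := by
      have := Real.add_one_le_exp (-q)
      linarith
    calc (1 - q) ^ m ≤ (Real.exp (-q)) ^ m := pow_le_pow_left₀ (by linarith) this m
      _ = Real.exp (-(q * m)) := by
          rw [← Real.exp_nat_mul]
          congr 1
          ring
  have a2 : (h : ℝ) ≤ q * m := by
    have : (512 : ℝ) ^ k * h ≤ m := by exact_mod_cast hm
    calc (h : ℝ) = q * (512 ^ k * h) := by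
          rw [hq, ← mul_assoc, ← mul_pow]
          norm_num
      _ ≤ q * m := by gcongr
  have a3 : Real.exp (-(q * m)) ≤ Real.exp (-(h : ℝ)) := by
    apply Real.exp_le_exp.2
    linarith
  have a4 : Real.exp (-(h : ℝ)) ≤ (1 / 2) ^ h := by
    have : Real.exp (-1) ≤ 1 / 2 := by
      rw [Real.exp_neg, one_div]
      apply inv_anti₀ (by norm_num)
      have := Real.add_one_le_exp 1
      linarith
    calc Real.exp (-(h : ℝ)) = (Real.exp (-1)) ^ h := by
          rw [← Real.exp_nat_mul]
          congr 1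
          ring
      _ ≤ _ := pow_le_pow_left₀ (Real.exp_pos _).le this h
  linarith

/-- the columns `a, …, a + m - 1` as a subset of `Fin N` -/
def seg (N m a : ℕ) : Finset (Fin N) :=
  (univ : Finset (Fin N)).filter (fun i : Fin N => a ≤ (i : ℕ) ∧ (i : ℕ) < a + m)

lemma mem_seg {N m a : ℕ} (i : Fin N) : i ∈ seg N m a ↔ a ≤ (i : ℕ) ∧ (i : ℕ) < a + m := by
  simp [seg]

lemma card_seg {N m a : ℕ} (h : a + m ≤ N) : m ≤ (seg N m a).card := by
  have h1 : ((Finset.range m).attach.image (fun i : {x // x ∈ Finset.range m} =>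
      (⟨a + i.1, by have := Finset.mem_range.1 i.2; omega⟩ : Fin N))).card = m := by
    rw [Finset.card_image_of_injective, Finset.card_attach, Finset.card_range]
    intro i i' he
    have := congrArg Fin.val he
    simp only at this
    exact Subtype.ext (by omega)
  calc m = _ := h1.symm
    _ ≤ _ := by
      refine Finset.card_le_card (fun x hx => ?_)
      rw [Finset.mem_image] at hx
      obtain ⟨i, _, rfl⟩ := hx
      rw [mem_seg]
      have := Finset.mem_range.1 i.2
      simp only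
      omega

/-- all families of injective selections -/
noncomputable def Fam {N k : ℕ} (Λ : Fin N → Fin k → Finset C) : Finset (Fin N → Fin k → C) :=
  Fintype.piFinset (fun i => Inj (Λ i))

omit [Fintype C] in
lemma card_Fam {N k : ℕ} (Λ : Fin N → Fin k → Finset C) :
    (Fam Λ).card = ∏ i, (Inj (Λ i)).card := by rw [Fam, Fintype.card_piFinset]

omit [Fintype C] in
lemma fail_one {N k h m : ℕ} (hk : 2 * k ≤ h) (Λ : Fin N → Fin k → Finset C)
    (hΛ : ∀ i j, (Λ i j).card = 200 * h) (hm : 512 ^ k * h ≤ m) (τ : C → Lt)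
    (hτ : ∀ i j, h ≤ ((Λ i j).filter (fun x => τ x = none)).card) (a : ℕ) (ha : a + m ≤ N) :
    (((Fam Λ).filter (fun f => ∀ i ∈ seg N m a, ∃ j, τ (f i j) ≠ none)).card : ℝ) ≤
      (1 / 2) ^ h * (Fam Λ).card := by
  have b1 : (Fam Λ).filter (fun f => ∀ i ∈ seg N m a, ∃ j, τ (f i j) ≠ none) ⊆
      Fintype.piFinset (fun i : Fin N => if i ∈ seg N m a then
          (Inj (Λ i)).filter (fun g => ∃ j, τ (g j) ≠ none) else Inj (Λ i)) := by
    intro f hf
    rw [Finset.mem_filter, Fam, Fintype.mem_piFinset] at hf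
    rw [Fintype.mem_piFinset]
    intro i
    by_cases hi : i ∈ seg N m a
    · rw [if_pos hi, Finset.mem_filter]
      exact ⟨hf.1 i, hf.2 i hi⟩
    · rw [if_neg hi]
      exact hf.1 i
  have c1 := Finset.card_le_card b1
  rw [Fintype.card_piFinset] at c1
  have c2 : (((Fam Λ).filter (fun f => ∀ i ∈ seg N m a, ∃ j, τ (f i j) ≠ none)).card : ℝ) ≤
      ∏ i : Fin N, ((((if i ∈ seg N m a then (Inj (Λ i)).filter (fun g => ∃ j, τ (g j) ≠ none)
        else Inj (Λ i)) : Finset (Fin k → C)).card : ℕ) : ℝ) := by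
    exact_mod_cast c1
  have c3 : ∏ i : Fin N, ((((if i ∈ seg N m a then (Inj (Λ i)).filter (fun g => ∃ j, τ (g j) ≠ none)
        else Inj (Λ i)) : Finset (Fin k → C)).card : ℕ) : ℝ) ≤
      ∏ i : Fin N, ((if i ∈ seg N m a then (1 - (1 / 512 : ℝ) ^ k) else 1) *
        ((Inj (Λ i)).card : ℝ)) := by
    refine Finset.prod_le_prod (fun i _ => by positivity) (fun i _ => ?_)
    by_cases hi : i ∈ seg N m a
    · rw [if_pos hi, if_pos hi]
      exact inj_bad hk (Λ i) (hΛ i) τ (hτ i)
    · rw [if_neg hi, if_neg hi, one_mul]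
  refine (c2.trans c3).trans ?_
  rw [Finset.prod_mul_distrib, Finset.prod_ite_mem, Finset.univ_inter, Finset.prod_const, card_Fam]
  push_cast
  have hq1 : (1 / 512 : ℝ) ^ k ≤ 1 := pow_le_one₀ (by norm_num) (by norm_num)
  have hq0 : (0 : ℝ) ≤ (1 / 512 : ℝ) ^ k := by positivity
  have b4 : (1 - (1 / 512 : ℝ) ^ k) ^ (seg N m a).card ≤ (1 / 2) ^ h :=
    (pow_le_pow_of_le_one (by linarith) (by linarith) (card_seg ha)).trans (pow_bound k h m hm)
  gcongr

/-- failure of a selection with respect to a class function -/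
def Fail {N k : ℕ} (m : ℕ) (f : Fin N → Fin k → C) (τ : C → Lt) : Prop :=
  ∃ a, a + m ≤ N ∧ ∀ i ∈ seg N m a, ∃ j, τ (f i j) ≠ none

omit [Fintype C] in
lemma fail_good {N k h m : ℕ} (hk : 2 * k ≤ h) (Λ : Fin N → Fin k → Finset C)
    (hΛ : ∀ i j, (Λ i j).card = 200 * h) (hm : 512 ^ k * h ≤ m) (τ : C → Lt)
    (hτ : ∀ i j, h ≤ ((Λ i j).filter (fun x => τ x = none)).card) :
    (((Fam Λ).filter (fun f => Fail m f τ)).card : ℝ) ≤
      ((N + 1 : ℕ) : ℝ) * ((1 / 2) ^ h * (Fam Λ).card) := by
  have hsub : (Fam Λ).filter (fun f => Fail m f τ) ⊆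
      ((range (N + 1)).filter (fun a => a + m ≤ N)).biUnion (fun a =>
        (Fam Λ).filter (fun f => ∀ i ∈ seg N m a, ∃ j, τ (f i j) ≠ none)) := by
    intro f hf
    rw [Finset.mem_filter] at hf
    obtain ⟨hf1, a, ha, hf2⟩ := hf
    rw [Finset.mem_biUnion]
    refine ⟨a, ?_, ?_⟩
    · rw [Finset.mem_filter, Finset.mem_range]
      exact ⟨by omega, ha⟩
    · rw [Finset.mem_filter]
      exact ⟨hf1, hf2⟩
  have h1 : (((Fam Λ).filter (fun f => Fail m f τ)).card : ℝ) ≤
      ∑ a ∈ (range (N + 1)).filter (fun a => a + m ≤ N),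
        (((Fam Λ).filter (fun f => ∀ i ∈ seg N m a, ∃ j, τ (f i j) ≠ none)).card : ℝ) := by
    exact_mod_cast (Finset.card_le_card hsub).trans Finset.card_biUnion_le
  refine h1.trans ?_
  have h2 : ∑ a ∈ (range (N + 1)).filter (fun a => a + m ≤ N),
        (((Fam Λ).filter (fun f => ∀ i ∈ seg N m a, ∃ j, τ (f i j) ≠ none)).card : ℝ) ≤
      ∑ a ∈ (range (N + 1)).filter (fun a => a + m ≤ N), ((1 / 2) ^ h * (Fam Λ).card : ℝ) := by
    refine Finset.sum_le_sum (fun a ha => ?_)
    rw [Finset.mem_filter] at ha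
    exact fail_one hk Λ hΛ hm τ hτ a ha.2
  refine h2.trans ?_
  rw [Finset.sum_const, nsmul_eq_mul]
  have h3 : ((range (N + 1)).filter (fun a => a + m ≤ N)).card ≤ N + 1 := by
    refine (Finset.card_filter_le _ _).trans ?_
    rw [Finset.card_range]
  gcongr

omit [Fintype C] in
lemma Fam_pos {N k h : ℕ} (hk : 2 * k ≤ h) (Λ : Fin N → Fin k → Finset C)
    (hΛ : ∀ i j, (Λ i j).card = 200 * h) : 0 < (Fam Λ).card := by
  rw [card_Fam]
  refine Finset.prod_pos (fun i _ => ?_)
  rcases Nat.eq_zero_or_pos h with hh | hh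
  · have hk0 : k = 0 := by omega
    subst hk0
    exact Finset.card_pos.2 ⟨fun j => j.elim0, by
      rw [mem_Inj]; exact ⟨fun j => j.elim0, fun j => j.elim0⟩⟩
  · have := inj_count 1 k (Λ i) (fun j => by rw [hΛ]; omega)
    rw [one_pow] at this
    exact this

/-- Diverse selection. -/
theorem diverse {N k h m : ℕ} (hk : 2 * k ≤ h) (Λ : Fin N → Fin k → Finset C)
    (hΛ : ∀ i j, (Λ i j).card = 200 * h) (hm : 512 ^ k * h ≤ m) :
    ∃ f : Fin N → Fin k → C, (∀ i j, f i j ∈ Λ i j) ∧ (∀ i, Function.Injective (f i)) ∧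
      num (X := C → Lt) (fun τ => Fail m f τ) ≤
        (((N + 1) * (k + 1) : ℕ) : ℝ) * (1 / 2) ^ h * Fintype.card (C → Lt) := by
  set Good : (C → Lt) → Prop := fun τ => ∀ i j, h ≤ ((Λ i j).filter (fun x => τ x = none)).card
    with hGood
  set K : ℝ := ((Fintype.card (C → Lt) : ℕ) : ℝ) with hK
  have hbad : num (X := C → Lt) (fun τ => ¬ Good τ) ≤ ((N * k : ℕ) : ℝ) * ((1 / 2) ^ h * K) := by
    have h1 : num (X := C → Lt) (fun τ => ¬ Good τ) ≤
        num (X := C → Lt) (fun τ => ∃ p ∈ (univ : Finset (Fin N × Fin k)),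
          ((Λ p.1 p.2).filter (fun x => τ x = none)).card < h) := by
      refine num_mono (fun τ hτ => ?_)
      simp only [hGood] at hτ
      push Not at hτ
      obtain ⟨i, j, hij⟩ := hτ
      exact ⟨(i, j), Finset.mem_univ _, hij⟩
    refine (h1.trans (num_exists _ _)).trans ?_
    calc _ ≤ ∑ p ∈ (univ : Finset (Fin N × Fin k)), ((1 / 2) ^ h * K) := by
          refine Finset.sum_le_sum (fun p _ => ?_)
          exact chernoff (Λ p.1 p.2) none h (le_of_eq (hΛ _ _).symm)
      _ = _ := by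
          rw [Finset.sum_const, Finset.card_univ, Fintype.card_prod, Fintype.card_fin,
            Fintype.card_fin, nsmul_eq_mul]
  have hswap : ∑ f ∈ Fam Λ, num (X := C → Lt) (fun τ => Fail m f τ) =
      ∑ τ : C → Lt, (((Fam Λ).filter (fun f => Fail m f τ)).card : ℝ) := by
    have e1 : ∀ f : Fin N → Fin k → C, num (X := C → Lt) (fun τ => Fail m f τ) =
        ∑ τ : C → Lt, if Fail m f τ then (1 : ℝ) else 0 := by
      intro f
      rw [num_ov, ov, Finset.card_filter]
      push_cast
      rfl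
    have e2 : ∀ τ : C → Lt, (((Fam Λ).filter (fun f => Fail m f τ)).card : ℝ) =
        ∑ f ∈ Fam Λ, if Fail m f τ then (1 : ℝ) else 0 := by
      intro τ
      rw [Finset.card_filter]
      push_cast
      rfl
    rw [Finset.sum_congr rfl (fun f _ => e1 f), Finset.sum_congr rfl (fun τ _ => e2 τ),
      Finset.sum_comm]
  have hsum : ∑ f ∈ Fam Λ, num (X := C → Lt) (fun τ => Fail m f τ) ≤
      ∑ f ∈ Fam Λ, ((((N + 1) * (k + 1) : ℕ) : ℝ) * (1 / 2) ^ h * K) := by
    rw [hswap]
    have e1 : ∀ τ : C → Lt, (((Fam Λ).filter (fun f => Fail m f τ)).card : ℝ) ≤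
        ((N + 1 : ℕ) : ℝ) * ((1 / 2) ^ h * (Fam Λ).card) +
          (if ¬ Good τ then ((Fam Λ).card : ℝ) else 0) := by
      intro τ
      by_cases hτ : Good τ
      · rw [if_neg (by simpa using hτ), add_zero]
        exact fail_good hk Λ hΛ hm τ hτ
      · rw [if_pos hτ]
        have : (((Fam Λ).filter (fun f => Fail m f τ)).card : ℝ) ≤ (Fam Λ).card := by
          exact_mod_cast Finset.card_filter_le _ _
        have h2 : (0 : ℝ) ≤ ((N + 1 : ℕ) : ℝ) * ((1 / 2) ^ h * (Fam Λ).card) := by positivity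
        linarith
    have e2 : ∑ τ : C → Lt, (if ¬ Good τ then ((Fam Λ).card : ℝ) else 0) =
        num (X := C → Lt) (fun τ => ¬ Good τ) * (Fam Λ).card := by
      rw [← Finset.sum_filter, Finset.sum_const, nsmul_eq_mul]
      congr 1
      rw [num_eq (fun τ => ¬ Good τ) ((univ : Finset (C → Lt)).filter (fun τ => ¬ Good τ))
        (by intro y; simp)]
    calc _ ≤ ∑ τ : C → Lt, (((N + 1 : ℕ) : ℝ) * ((1 / 2) ^ h * (Fam Λ).card) +
          (if ¬ Good τ then ((Fam Λ).card : ℝ) else 0)) := Finset.sum_le_sum (fun τ _ => e1 τ)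
      _ = K * (((N + 1 : ℕ) : ℝ) * ((1 / 2) ^ h * (Fam Λ).card)) +
          num (X := C → Lt) (fun τ => ¬ Good τ) * (Fam Λ).card := by
          rw [Finset.sum_add_distrib, e2, Finset.sum_const, nsmul_eq_mul, Finset.card_univ]
      _ ≤ K * (((N + 1 : ℕ) : ℝ) * ((1 / 2) ^ h * (Fam Λ).card)) +
          (((N * k : ℕ) : ℝ) * ((1 / 2) ^ h * K)) * (Fam Λ).card := by gcongr
      _ = (Fam Λ).card * ((((N + 1) + N * k : ℕ) : ℝ) * (1 / 2) ^ h * K) := by
          push_cast
          ring
      _ ≤ (Fam Λ).card * ((((N + 1) * (k + 1) : ℕ) : ℝ) * (1 / 2) ^ h * K) := by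
          have : (N + 1) + N * k ≤ (N + 1) * (k + 1) := by nlinarith
          have h2 : (((N + 1) + N * k : ℕ) : ℝ) ≤ (((N + 1) * (k + 1) : ℕ) : ℝ) := by
            exact_mod_cast this
          gcongr
      _ = _ := by rw [Finset.sum_const, nsmul_eq_mul]
  obtain ⟨f, hf, hle⟩ := Finset.exists_le_of_sum_le (Finset.card_pos.1 (Fam_pos hk Λ hΛ)) hsum
  rw [Fam, Fintype.mem_piFinset] at hf
  refine ⟨f, fun i j => ((mem_Inj _ _).1 (hf i)).1 j, fun i => ((mem_Inj _ _).1 (hf i)).2, hle⟩

end Pool.Agent.H205R2.NR
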