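import Mathlib
import Pool.Agent.H205R2.NR.Diverse

set_option autoImplicit false

/-! The deterministic part: a square path produces a failing coarse trajectory. -/

namespace Pool.Agent.H205R2.NR

open Finset Classical

variable {C : Type} {k : ℕ}

/-- type of a column -/
def ty (u : ℕ → Fin 16) (a : ℕ) : Fin 3 × Fin 16 := (⟨a % 3, Nat.mod_lt _ (by norm_num)⟩, u a)

lemma ty_eq {u : ℕ → Fin 16} {a b : ℕ} (h : ty u a = ty u b) : a % 3 = b % 3 ∧ u a = u b := by
  unfold ty at h
  rw [Prod.mk.injEq] at h
  exact ⟨congrArg Fin.val h.1, h.2⟩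

/-- a square path with `2 n` vertices in the columns `< B` -/
structure SqPath (n B : ℕ) (f : ℕ → Fin k → C) (p : ℕ → ℕ × Fin k) : Prop where
  pos : 0 < n
  inj : ∀ i j, i < 2 * n → j < 2 * n → p i = p j → i = j
  step : ∀ i, i + 1 < 2 * n → (p (i + 1)).1 ≤ (p i).1 + 1 ∧ (p i).1 ≤ (p (i + 1)).1 + 1
  bd : ∀ i, i < 2 * n → (p i).1 < B
  sq : ∀ i, i < n → f (p i).1 (p i).2 = f (p (n + i)).1 (p (n + i)).2

namespace SqPath

variable {n B : ℕ} {f : ℕ → Fin k → C} {p : ℕ → ℕ × Fin k}

lemma rev (h : SqPath n B f p) : SqPath n B f (fun i => p (2 * n - 1 - i)) where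
  pos := h.pos
  inj := by
    intro i j hi hj hij
    have := h.inj _ _ (by omega) (by omega) hij
    omega
  step := by
    intro i hi
    have := h.step (2 * n - 1 - (i + 1)) (by omega)
    have e : 2 * n - 1 - (i + 1) + 1 = 2 * n - 1 - i := by omega
    rw [e] at this
    exact ⟨this.2, this.1⟩
  bd := fun i hi => h.bd _ (by omega)
  sq := by
    intro i hi
    have := h.sq (n - 1 - i) (by omega)
    have e1 : n + (n - 1 - i) = 2 * n - 1 - i := by omega
    have e2 : n - 1 - i = 2 * n - 1 - (n + i) := by omega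
    rw [e1, e2] at this
    exact this.symm

lemma lip (h : SqPath n B f p) (i : ℕ) : ∀ d, i + d < 2 * n →
    (p (i + d)).1 ≤ (p i).1 + d ∧ (p i).1 ≤ (p (i + d)).1 + d := by
  intro d
  induction d with
  | zero => intro _; simp
  | succ d ih =>
    intro hd
    have h1 := ih (by omega)
    have h2 := h.step (i + d) (by omega)
    have e : i + (d + 1) = i + d + 1 := by omega
    rw [e]
    omega

lemma lip' (h : SqPath n B f p) {i j D : ℕ} (hi : i < 2 * n) (hj : j < 2 * n)
    (h1 : i ≤ j + D) (h2 : j ≤ i + D) : (p i).1 ≤ (p j).1 + D := by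
  rcases Nat.le_total i j with hij | hij
  · have := (h.lip i (j - i) (by omega)).2
    have e : i + (j - i) = j := by omega
    rw [e] at this
    omega
  · have := (h.lip j (i - j) (by omega)).1
    have e : j + (i - j) = i := by omega
    rw [e] at this
    omega

/-- intermediate values, upwards -/
lemma ivt_up (h : SqPath n B f p) (i : ℕ) : ∀ d, i + d < 2 * n → ∀ a, (p i).1 ≤ a →
    a ≤ (p (i + d)).1 → ∃ l, i ≤ l ∧ l ≤ i + d ∧ (p l).1 = a := by
  intro d
  induction d with
  | zero =>
    intro _ a h1 h2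
    exact ⟨i, le_rfl, by omega, by simp at h2; omega⟩
  | succ d ih =>
    intro hd a h1 h2
    by_cases h3 : a ≤ (p (i + d)).1
    · obtain ⟨l, hl1, hl2, hl3⟩ := ih (by omega) a h1 h3
      exact ⟨l, hl1, by omega, hl3⟩
    · have h4 := h.step (i + d) (by omega)
      have e : i + (d + 1) = i + d + 1 := by omega
      rw [e] at h2 ⊢
      exact ⟨i + d + 1, by omega, le_rfl, by omega⟩

lemma ivt_down (h : SqPath n B f p) (i : ℕ) : ∀ d, i + d < 2 * n → ∀ a, (p (i + d)).1 ≤ a →
    a ≤ (p i).1 → ∃ l, i ≤ l ∧ l ≤ i + d ∧ (p l).1 = a := by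
  intro d
  induction d with
  | zero =>
    intro _ a h1 h2
    exact ⟨i, le_rfl, by omega, by simp at h1; omega⟩
  | succ d ih =>
    intro hd a h1 h2
    by_cases h3 : (p (i + d)).1 ≤ a
    · obtain ⟨l, hl1, hl2, hl3⟩ := ih (by omega) a h3 h2
      exact ⟨l, hl1, by omega, hl3⟩
    · have h4 := h.step (i + d) (by omega)
      have e : i + (d + 1) = i + d + 1 := by omega
      rw [e] at h1 ⊢
      exact ⟨i + d + 1, by omega, le_rfl, by omega⟩

/-- intermediate values between two times in a window -/
lemma ivt (h : SqPath n B f p) {s e i j : ℕ} (hs : s ≤ i) (he : i < e) (hs' : s ≤ j) (he' : j < e)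
    (hen : e ≤ 2 * n) (a : ℕ) (h1 : (p i).1 ≤ a) (h2 : a ≤ (p j).1) :
    ∃ l, s ≤ l ∧ l < e ∧ (p l).1 = a := by
  rcases Nat.le_total i j with hij | hij
  · have e1 : i + (j - i) = j := by omega
    obtain ⟨l, hl1, hl2, hl3⟩ := h.ivt_up i (j - i) (by omega) a h1 (by rw [e1]; exact h2)
    exact ⟨l, by omega, by omega, hl3⟩
  · have e1 : j + (i - j) = i := by omega
    obtain ⟨l, hl1, hl2, hl3⟩ := h.ivt_down j (i - j) (by omega) a (by rw [e1]; exact h1) h2
    exact ⟨l, by omega, by omega, hl3⟩

/-- each column is visited at most `k` times -/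
lemma count (h : SqPath n B f p) (S : Finset ℕ) (hS : ∀ i ∈ S, i < 2 * n) (W : Finset ℕ)
    (hW : ∀ i ∈ S, (p i).1 ∈ W) : S.card ≤ k * W.card := by
  have h1 : S.card ≤ (W ×ˢ (univ : Finset (Fin k))).card := by
    refine Finset.card_le_card_of_injOn p ?_ ?_
    · intro i hi
      rw [Finset.mem_coe, Finset.mem_product]
      exact ⟨hW i hi, Finset.mem_univ _⟩
    · intro i hi j hj hij
      exact h.inj i j (hS i hi) (hS j hj) hij
  rw [Finset.card_product, Finset.card_univ, Fintype.card_fin] at h1
  rw [mul_comm]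
  exact h1

end SqPath

lemma div_cl {N a b : ℕ} (hN : 0 < N) (h : a ≤ b + N) : a / N ≤ b / N + 1 := by
  calc a / N ≤ (b + N) / N := Nat.div_le_div_right h
    _ = b / N + 1 := Nat.add_div_right b hN

/-- coherence: close columns sharing a colour have the same type -/
lemma coherent {N R : ℕ} (hN : 0 < N) {f : ℕ → Fin k → C} {τ : ℕ → C → Lt} {u : ℕ → Fin 16}
    (hcl : ∀ a, a < R * N → ∀ j, τ (a / N) (f a j) = some (ty u a) ∧
      τ (a / N + 1) (f a j) = some (ty u a)) {a b : ℕ} (ha : a < R * N) (hb : b < R * N)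
    (h1 : a ≤ b + N) (h2 : b ≤ a + N) {i j : Fin k} (he : f a i = f b j) :
    a % 3 = b % 3 ∧ u a = u b := by
  have d1 := div_cl hN h1
  have d2 := div_cl hN h2
  have ca := hcl a ha i
  have cb := hcl b hb j
  rw [he] at ca
  apply ty_eq
  apply Option.some_injective
  rcases Nat.lt_trichotomy (a / N) (b / N) with h | h | h
  · have e : a / N + 1 = b / N := by omega
    rw [← ca.2, e, cb.1]
  · rw [← ca.1, h, cb.1]
  · have e : b / N + 1 = a / N := by omega
    rw [← ca.1, ← e, cb.2]

section short

variable {n N M R : ℕ} {f : ℕ → Fin k → C} {p : ℕ → ℕ × Fin k} {τ : ℕ → C → Lt}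
  {u : ℕ → Fin 16}

/-- one step of the propagation of a constant shift -/
lemma shift_step (hM : 0 < M) (hNM : N = 3 * M) (h : SqPath n (R * N) f p)
    (hcl : ∀ a, a < R * N → ∀ j, τ (a / N) (f a j) = some (ty u a) ∧
      τ (a / N + 1) (f a j) = some (ty u a)) {i j : ℕ} (hi : i < n) (hj : j < n)
    (hij : i = j + 1 ∨ j = i + 1) (δ : ℤ) (hδ : |δ| < N)
    (hd : ((p (n + i)).1 : ℤ) - (p i).1 = δ) : ((p (n + j)).1 : ℤ) - (p j).1 = δ := by
  have hN : 0 < N := by omega
  have b1 := h.bd i (by omega)
  have b2 := h.bd (n + i) (by omega)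
  have b3 := h.bd j (by omega)
  have b4 := h.bd (n + j) (by omega)
  rw [abs_lt] at hδ
  have c1 := coherent hN hcl b1 b2 (by omega) (by omega) (h.sq i hi)
  have s1 : (p i).1 ≤ (p j).1 + 1 ∧ (p j).1 ≤ (p i).1 + 1 := by
    rcases hij with e | e
    · subst e
      have := h.step j (by omega)
      omega
    · subst e
      have := h.step i (by omega)
      omega
  have s2 : (p (n + i)).1 ≤ (p (n + j)).1 + 1 ∧ (p (n + j)).1 ≤ (p (n + i)).1 + 1 := by
    rcases hij with e | e
    · subst e
      have := h.step (n + j) (by omega)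
      have e1 : n + (j + 1) = n + j + 1 := by omega
      rw [e1]
      omega
    · subst e
      have := h.step (n + i) (by omega)
      have e1 : n + (i + 1) = n + i + 1 := by omega
      rw [e1]
      omega
  have c1' := c1.1
  have c2 := coherent hN hcl b3 b4 (by omega) (by omega) (h.sq j hj)
  have c2' := c2.1
  omega

lemma shift_const (hM : 0 < M) (hNM : N = 3 * M) (h : SqPath n (R * N) f p)
    (hcl : ∀ a, a < R * N → ∀ j, τ (a / N) (f a j) = some (ty u a) ∧
      τ (a / N + 1) (f a j) = some (ty u a)) {i : ℕ} (hi : i < n) (δ : ℤ) (hδ : |δ| < N)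
    (hd : ((p (n + i)).1 : ℤ) - (p i).1 = δ) :
    ∀ j, j < n → ((p (n + j)).1 : ℤ) - (p j).1 = δ := by
  have down : ∀ d, d ≤ i → ((p (n + (i - d))).1 : ℤ) - (p (i - d)).1 = δ := by
    intro d
    induction d with
    | zero => intro _; simpa using hd
    | succ d ih =>
      intro hd'
      exact shift_step hM hNM h hcl (i := i - d) (j := i - (d + 1)) (by omega) (by omega)
        (by omega) δ hδ (ih (by omega))
  have up : ∀ d, i + d < n → ((p (n + (i + d))).1 : ℤ) - (p (i + d)).1 = δ := by
    intro d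
    induction d with
    | zero => intro _; simpa using hd
    | succ d ih =>
      intro hd'
      exact shift_step hM hNM h hcl (i := i + d) (j := i + (d + 1)) (by omega) (by omega)
        (by omega) δ hδ (ih (by omega))
  intro j hj
  rcases Nat.le_total j i with hji | hji
  · have := down (i - j) (by omega)
    have e : i - (i - j) = j := by omega
    rwa [e] at this
  · have := up (j - i) (by omega)
    have e : i + (j - i) = j := by omega
    rwa [e] at this

/-- no square path with a small nonnegative constant shift -/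
lemma short (hN : 0 < N) (h : SqPath n (R * N) f p)
    (hcl : ∀ a, a < R * N → ∀ j, τ (a / N) (f a j) = some (ty u a) ∧
      τ (a / N + 1) (f a j) = some (ty u a))
    (hinj : ∀ a, a < R * N → Function.Injective (f a))
    (husq : ∀ i e, 0 < e → i + 2 * e ≤ R * N → ∃ j, j < e ∧ u (i + j) ≠ u (i + e + j))
    (δ : ℕ) (hδ : δ < N) (hd : ∀ j, j < n → (p (n + j)).1 = (p j).1 + δ) : False := by
  rcases Nat.eq_zero_or_pos δ with h0 | h0
  · subst h0
    have hp := h.pos
    have h1 := hd 0 hp
    have h2 := h.sq 0 hp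
    simp only [add_zero] at h1 h2
    rw [h1] at h2
    have h3 := hinj _ (h.bd 0 (by omega)) h2
    have h4 := h.inj 0 n (by omega) (by omega) (Prod.ext h1.symm h3)
    omega
  · have hp := h.pos
    have key : ∀ i, i < δ → ∃ l, l < n ∧ (p l).1 = (p 0).1 + i := by
      intro i hi
      have h1 := hd 0 hp
      simp only [add_zero] at h1
      have h2 := h.step (n - 1) (by omega)
      have e : n - 1 + 1 = n := by omega
      rw [e] at h2
      obtain ⟨l, _, hl2, hl3⟩ := h.ivt (s := 0) (e := n) (i := 0) (j := n - 1) (by omega) hp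
        (by omega) (by omega) (by omega) ((p 0).1 + i) (by omega) (by omega)
      exact ⟨l, hl2, hl3⟩
    have hlast : (p 0).1 + 2 * δ ≤ R * N := by
      obtain ⟨l, hl, hl2⟩ := key (δ - 1) (by omega)
      have h1 := hd l hl
      have h2 := h.bd (n + l) (by omega)
      omega
    obtain ⟨j, hj, hne⟩ := husq (p 0).1 δ h0 hlast
    apply hne
    obtain ⟨l, hl, hl2⟩ := key j hj
    have h1 := hd l hl
    have b1 := h.bd l (by omega)
    have b2 := h.bd (n + l) (by omega)
    have c := coherent hN hcl b1 b2 (by omega) (by omega) (h.sq l hl)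
    have c2 := c.2
    rw [h1, hl2] at c2
    rw [c2]
    congr 1
    omega

end short

/-- close coarse positions -/
def Cl (a b : ℕ) : Prop := a ≤ b + 3 ∧ b ≤ a + 3

/-- coarse trajectories -/
structure Traj (k T : ℕ) (β v : ℕ → ℕ) : Prop where
  pos : 0 < T
  lt : ∀ t, t < T → β t + 2 ≤ v t
  cb : ∀ t, t + 1 < T → Cl (β t) (β (t + 1))
  cv : ∀ t, t + 1 < T → Cl (v t) (v (t + 1))
  cj : Cl (β (T - 1)) (v 0)
  cnt : T ≤ 12 * k * ((range T).image v).card

/-- failure of block `b` with respect to the class function `σ` -/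
def FailB (N m : ℕ) (f : ℕ → Fin k → C) (b : ℕ) (σ : C → Lt) : Prop :=
  ∃ a, b * N ≤ a ∧ a + m ≤ (b + 1) * N ∧ ∀ i, a ≤ i → i < a + m → ∃ j, σ (f i j) ≠ none

section long

variable {n N M m R : ℕ} {f : ℕ → Fin k → C} {p : ℕ → ℕ × Fin k} {τ : ℕ → C → Lt}
  {u : ℕ → Fin 16}

/-- analysis of one window -/
lemma window (hk : 0 < k) (hm : 0 < m) (hM : M = 2 * k * m) (hNM : N = 3 * M)
    (h : SqPath n (R * N) f p)
    (hcl : ∀ a, a < R * N → ∀ j, τ (a / N) (f a j) = some (ty u a) ∧
      τ (a / N + 1) (f a j) = some (ty u a))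
    (hd : ∀ j, j < n → (p j).1 + N ≤ (p (n + j)).1) (t : ℕ) (ht : (t + 1) * M ≤ n) :
    ∃ b v jx iy, t * M ≤ jx ∧ jx < (t + 1) * M ∧ t * M ≤ iy ∧ iy < (t + 1) * M ∧
      (b = (p jx).1 / N ∨ b = (p jx).1 / N + 1) ∧
      (v = (p (n + iy)).1 / N + 1 ∨ v = (p (n + iy)).1 / N + 2) ∧ b + 2 ≤ v ∧ v ≤ R ∧
      FailB N m f b (τ v) := by
  have hMpos : 0 < M := by
    rw [hM]; positivity
  have hN : 0 < N := by omega
  have hmM : 2 * m ≤ M := by
    rw [hM]; nlinarith
  set W := Finset.Ico (t * M) ((t + 1) * M) with hW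
  have hWM : (t + 1) * M = t * M + M := by ring
  have hWne : W.Nonempty := by
    rw [hW, Finset.nonempty_Ico]; omega
  have hWcard : W.card = M := by
    rw [hW, Nat.card_Ico]; omega
  obtain ⟨jx, hjx, hxmin⟩ := Finset.exists_min_image W (fun j => (p j).1) hWne
  obtain ⟨jX, hjX, hxmax⟩ := Finset.exists_max_image W (fun j => (p j).1) hWne
  obtain ⟨iy, hiy, hymin⟩ := Finset.exists_min_image W (fun j => (p (n + j)).1) hWne
  rw [hW, Finset.mem_Ico] at hjx hjX hiy
  -- the window visits many columns
  have hrange : (p jx).1 + 2 * m ≤ (p jX).1 + 1 := by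
    have h1 := h.count W (fun i hi => by rw [hW, Finset.mem_Ico] at hi; omega)
      (Finset.Icc (p jx).1 (p jX).1) (fun i hi => by
        rw [Finset.mem_Icc]
        exact ⟨hxmin i hi, hxmax i hi⟩)
    rw [hWcard, Nat.card_Icc, hM] at h1
    have h2 : k * (2 * m) ≤ k * ((p jX).1 + 1 - (p jx).1) := by
      calc k * (2 * m) = 2 * k * m := by ring
        _ ≤ _ := h1
    have h3 := Nat.le_of_mul_le_mul_left h2 hk
    omega
  have hatt : ∀ a, (p jx).1 ≤ a → a < (p jx).1 + 2 * m → ∃ l, l ∈ W ∧ (p l).1 = a := by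
    intro a h1 h2
    obtain ⟨l, hl1, hl2, hl3⟩ := h.ivt (s := t * M) (e := (t + 1) * M) hjx.1 hjx.2 hjX.1 hjX.2
      (by omega) a h1 (by omega)
    exact ⟨l, by rw [hW, Finset.mem_Ico]; exact ⟨hl1, hl2⟩, hl3⟩
  -- choice of the block and of the columns
  obtain ⟨b, a0, hb, hba, hab, ha0, ha1⟩ : ∃ b a0, (b = (p jx).1 / N ∨ b = (p jx).1 / N + 1) ∧
      b * N ≤ a0 ∧ a0 + m ≤ (b + 1) * N ∧ (p jx).1 ≤ a0 ∧ a0 + m ≤ (p jx).1 + 2 * m := by
    have e1 : (p jx).1 / N * N ≤ (p jx).1 := Nat.div_mul_le_self _ _
    have e2 : (p jx).1 < ((p jx).1 / N + 1) * N := by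
      have := Nat.lt_div_mul_add (a := (p jx).1) hN
      calc (p jx).1 < (p jx).1 / N * N + N := this
        _ = _ := by ring
    rcases Nat.lt_or_ge (((p jx).1 / N + 1) * N) ((p jx).1 + m) with hc | hc
    · refine ⟨(p jx).1 / N + 1, ((p jx).1 / N + 1) * N, Or.inr rfl, le_rfl, ?_, e2.le, ?_⟩
      · have : ((p jx).1 / N + 1 + 1) * N = ((p jx).1 / N + 1) * N + N := by ring
        omega
      · omega
    · exact ⟨(p jx).1 / N, (p jx).1, Or.inl rfl, e1, hc, le_rfl, by omega⟩
  set c0 := (p (n + iy)).1 / N with hc0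
  -- properties of the partner columns
  have hpart : ∀ l, l ∈ W → a0 ≤ (p l).1 → c0 ≤ (p (n + l)).1 / N ∧
      (p (n + l)).1 / N ≤ c0 + 1 ∧ b + 1 ≤ (p (n + l)).1 / N ∧ (p (n + l)).1 / N < R := by
    intro l hl hal
    have h1 := hymin l hl
    rw [hW, Finset.mem_Ico] at hl
    refine ⟨Nat.div_le_div_right h1, ?_, ?_, ?_⟩
    · have := h.lip' (i := n + l) (j := n + iy) (D := M) (by omega) (by omega) (by omega) (by omega)
      exact div_cl hN (by omega)
    · have h2 := hd l (by omega)
      rw [Nat.le_div_iff_mul_le hN]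
      calc (b + 1) * N = b * N + N := by ring
        _ ≤ _ := by omega
    · have h2 := h.bd (n + l) (by omega)
      rw [Nat.div_lt_iff_lt_mul hN]
      exact h2
  have hv : ∃ v, (v = c0 + 1 ∨ v = c0 + 2) ∧ b + 2 ≤ v ∧ ∀ l, l ∈ W → a0 ≤ (p l).1 →
      (p (n + l)).1 / N = v ∨ (p (n + l)).1 / N + 1 = v := by
    rcases Nat.lt_or_ge (c0 + 1) (b + 2) with hc | hc
    · obtain ⟨l, hl, hla⟩ := hatt a0 ha0 (by omega)
      have h1 := hpart l hl (by omega)
      refine ⟨b + 2, by omega, le_rfl, ?_⟩
      intro l' hl' hla'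
      have h2 := hpart l' hl' hla'
      omega
    · refine ⟨c0 + 1, Or.inl rfl, hc, ?_⟩
      intro l' hl' hla'
      have h2 := hpart l' hl' hla'
      omega
  obtain ⟨v, hv1, hv2, hv3⟩ := hv
  refine ⟨b, v, jx, iy, hjx.1, hjx.2, hiy.1, hiy.2, hb, hv1, hv2, ?_, a0, hba, hab, ?_⟩
  · obtain ⟨l, hl, hla⟩ := hatt a0 ha0 (by omega)
    have h1 := hpart l hl (by omega)
    have h2 := hv3 l hl (by omega)
    omega
  · intro i hi1 hi2
    obtain ⟨l, hl, hla⟩ := hatt i (by omega) (by omega)
    refine ⟨(p l).2, ?_⟩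
    have hl' := hl
    rw [hW, Finset.mem_Ico] at hl
    have h1 := h.sq l (by omega)
    rw [← hla, h1]
    have h2 := hcl _ (h.bd (n + l) (by omega)) (p (n + l)).2
    rcases hv3 l hl' (by omega) with e | e
    · rw [← e, h2.1]
      simp
    · rw [← e, h2.2]
      simp

/-- a square path with large shifts yields a failing trajectory -/
lemma long (hk : 0 < k) (hm : 0 < m) (hM : M = 2 * k * m) (hNM : N = 3 * M)
    (h : SqPath n (R * N) f p)
    (hcl : ∀ a, a < R * N → ∀ j, τ (a / N) (f a j) = some (ty u a) ∧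
      τ (a / N + 1) (f a j) = some (ty u a))
    (hd : ∀ j, j < n → (p j).1 + N ≤ (p (n + j)).1) :
    ∃ T β v, Traj k T β v ∧ ∀ t, t < T → v t ≤ R ∧ FailB N m f (β t) (τ (v t)) := by
  have hMpos : 0 < M := by
    rw [hM]; positivity
  have hN : 0 < N := by omega
  set T := n / M with hT
  have hTn : T * M ≤ n := Nat.div_mul_le_self _ _
  have hnT : n < (T + 1) * M := by
    have := Nat.lt_div_mul_add (a := n) hMpos
    calc n < n / M * M + M := this
      _ = _ := by rw [hT]; ring
  have hnT' : n < T * M + M := by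
    calc n < (T + 1) * M := hnT
      _ = _ := by ring
  have hw : ∀ t, t < T → ∃ b v jx iy, t * M ≤ jx ∧ jx < (t + 1) * M ∧ t * M ≤ iy ∧
      iy < (t + 1) * M ∧ (b = (p jx).1 / N ∨ b = (p jx).1 / N + 1) ∧
      (v = (p (n + iy)).1 / N + 1 ∨ v = (p (n + iy)).1 / N + 2) ∧ b + 2 ≤ v ∧ v ≤ R ∧
      FailB N m f b (τ v) := by
    intro t ht
    refine window hk hm hM hNM h hcl hd t ?_
    calc (t + 1) * M ≤ T * M := Nat.mul_le_mul_right _ ht
      _ ≤ n := hTn
  choose! β v jx iy h1 h2 h3 h4 h5 h6 h7 h8 h9 using hw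
  have hmulT : ∀ t, t < T → (t + 1) * M ≤ T * M := fun t ht => Nat.mul_le_mul_right _ ht
  have hpos := h.pos
  have hnN : N ≤ n := by
    have a1 := hd 0 hpos
    simp only [add_zero] at a1
    have a2 := (h.lip 0 n (by omega)).1
    rw [zero_add] at a2
    omega
  have hTpos : 0 < T := Nat.div_pos (by omega) hMpos
  refine ⟨T, β, v, ⟨hTpos, h7, ?_, ?_, ?_, ?_⟩, fun t ht => ⟨h8 t ht, h9 t ht⟩⟩
  · intro t ht
    have a1 := h1 t (by omega)
    have a2 := h2 t (by omega)
    have a3 := h1 (t + 1) ht
    have a4 := h2 (t + 1) ht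
    have e1 : (t + 1) * M = t * M + M := by ring
    have e2 : (t + 1 + 1) * M = t * M + M + M := by ring
    have e3 := hmulT (t + 1) ht
    have b1 := h.lip' (i := jx t) (j := jx (t + 1)) (D := 2 * M) (by omega) (by omega) (by omega)
      (by omega)
    have b2 := h.lip' (i := jx (t + 1)) (j := jx t) (D := 2 * M) (by omega) (by omega) (by omega)
      (by omega)
    have c1 := div_cl hN (a := (p (jx t)).1) (b := (p (jx (t + 1))).1) (by omega)
    have c2 := div_cl hN (a := (p (jx (t + 1))).1) (b := (p (jx t)).1) (by omega)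
    have d1 := h5 t (by omega)
    have d2 := h5 (t + 1) ht
    constructor <;> omega
  · intro t ht
    have a1 := h3 t (by omega)
    have a2 := h4 t (by omega)
    have a3 := h3 (t + 1) ht
    have a4 := h4 (t + 1) ht
    have e1 : (t + 1) * M = t * M + M := by ring
    have e2 : (t + 1 + 1) * M = t * M + M + M := by ring
    have e3 := hmulT (t + 1) ht
    have b1 := h.lip' (i := n + iy t) (j := n + iy (t + 1)) (D := 2 * M) (by omega) (by omega)
      (by omega) (by omega)
    have b2 := h.lip' (i := n + iy (t + 1)) (j := n + iy t) (D := 2 * M) (by omega) (by omega)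
      (by omega) (by omega)
    have c1 := div_cl hN (a := (p (n + iy t)).1) (b := (p (n + iy (t + 1))).1) (by omega)
    have c2 := div_cl hN (a := (p (n + iy (t + 1))).1) (b := (p (n + iy t)).1) (by omega)
    have d1 := h6 t (by omega)
    have d2 := h6 (t + 1) ht
    constructor <;> omega
  · have a1 := h1 (T - 1) (by omega)
    have a2 := h2 (T - 1) (by omega)
    have a3 := h3 0 hTpos
    have a4 := h4 0 hTpos
    have e1 : (T - 1 + 1) * M = T * M := by
      congr 1
      omega
    have e2 : (T - 1 + 1) * M = (T - 1) * M + M := by ring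
    have e3 : (0 + 1) * M = M := by ring
    have b1 := h.lip' (i := jx (T - 1)) (j := n + iy 0) (D := N) (by omega) (by omega)
      (by omega) (by omega)
    have b2 := h.lip' (i := n + iy 0) (j := jx (T - 1)) (D := N) (by omega) (by omega)
      (by omega) (by omega)
    have c1 := div_cl hN b1
    have c2 := div_cl hN b2
    have d1 := h5 (T - 1) (by omega)
    have d2 := h6 0 hTpos
    constructor <;> omega
  · -- counting
    set V := (range T).image v with hV
    set Bl := V.biUnion (fun v => Finset.Icc (v - 3) v) with hBl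
    have hBlc : Bl.card ≤ V.card * 4 := by
      rw [hBl]
      refine Finset.card_biUnion_le_card_mul _ _ _ (fun x _ => ?_)
      rw [Nat.card_Icc]
      omega
    set Co := Bl.biUnion (fun b => Finset.Ico (b * N) ((b + 1) * N)) with hCo
    have hCoc : Co.card ≤ Bl.card * N := by
      rw [hCo]
      refine Finset.card_biUnion_le_card_mul _ _ _ (fun x _ => ?_)
      rw [Nat.card_Ico]
      have : (x + 1) * N = x * N + N := by ring
      omega
    have hcov : ∀ j, j < n → (p (n + j)).1 ∈ Co := by
      intro j hj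
      obtain ⟨t, ht, ht1, ht2⟩ : ∃ t, t < T ∧ j ≤ iy t + 2 * M ∧ iy t ≤ j + 2 * M := by
        rcases Nat.lt_or_ge (j / M) T with hc | hc
        · refine ⟨j / M, hc, ?_, ?_⟩
          · have a1 := h3 _ hc
            have a2 := h4 _ hc
            have a3 := Nat.lt_div_mul_add (a := j) hMpos
            omega
          · have a1 := h3 _ hc
            have a2 := h4 _ hc
            have a3 := Nat.div_mul_le_self j M
            have e1 : (j / M + 1) * M = j / M * M + M := by ring
            omega
        · refine ⟨T - 1, by omega, ?_, ?_⟩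
          · have a1 := h3 (T - 1) (by omega)
            have e1 : (T - 1 + 1) * M = T * M := by
              congr 1
              omega
            have e2 : (T - 1 + 1) * M = (T - 1) * M + M := by ring
            omega
          · have a2 := h4 (T - 1) (by omega)
            have e1 : (T - 1 + 1) * M = T * M := by
              congr 1
              omega
            have e3 : T * M ≤ j := by
              calc T * M ≤ j / M * M := Nat.mul_le_mul_right _ hc
                _ ≤ j := Nat.div_mul_le_self _ _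
            omega
      have a2 := h4 t ht
      have e3 := hmulT t ht
      have b1 := h.lip' (i := n + j) (j := n + iy t) (D := 2 * M) (by omega) (by omega)
        (by omega) (by omega)
      have b2 := h.lip' (i := n + iy t) (j := n + j) (D := 2 * M) (by omega) (by omega)
        (by omega) (by omega)
      have c1 := div_cl hN (a := (p (n + j)).1) (b := (p (n + iy t)).1) (by omega)
      have c2 := div_cl hN (a := (p (n + iy t)).1) (b := (p (n + j)).1) (by omega)
      have d1 := h6 t ht
      rw [hCo, Finset.mem_biUnion]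
      refine ⟨(p (n + j)).1 / N, ?_, ?_⟩
      · rw [hBl, Finset.mem_biUnion]
        refine ⟨v t, ?_, ?_⟩
        · rw [hV, Finset.mem_image]
          exact ⟨t, Finset.mem_range.2 ht, rfl⟩
        · rw [Finset.mem_Icc]
          clear_value T V Bl Co
          generalize (p (n + j)).1 / N = q1 at c1 c2 ⊢
          generalize (p (n + iy t)).1 / N = q2 at c1 c2 d1
          constructor <;> omega
      · rw [Finset.mem_Ico]
        refine ⟨Nat.div_mul_le_self _ _, ?_⟩
        have := Nat.lt_div_mul_add (a := (p (n + j)).1) hN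
        calc (p (n + j)).1 < (p (n + j)).1 / N * N + N := this
          _ = _ := by ring
    have hc := h.count (Finset.Ico n (2 * n)) (fun i hi => by
      rw [Finset.mem_Ico] at hi; exact hi.2) Co (fun i hi => by
        rw [Finset.mem_Ico] at hi
        have := hcov (i - n) (by omega)
        have e : n + (i - n) = i := by omega
        rwa [e] at this)
    rw [Nat.card_Ico] at hc
    have hc2 : T * M ≤ (12 * k * V.card) * M := by
      calc T * M ≤ n := hTn
        _ = 2 * n - n := by omega
        _ ≤ k * Co.card := hc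
        _ ≤ k * (V.card * 4 * N) := by
            gcongr
            exact hCoc.trans (Nat.mul_le_mul_right _ hBlc)
        _ = (12 * k * V.card) * M := by rw [hNM]; ring
    exact Nat.le_of_mul_le_mul_right hc2 hMpos

/-- The deterministic theorem. -/
theorem det (hk : 0 < k) (hm : 0 < m) (hM : M = 2 * k * m) (hNM : N = 3 * M)
    (hcl : ∀ a, a < R * N → ∀ j, τ (a / N) (f a j) = some (ty u a) ∧
      τ (a / N + 1) (f a j) = some (ty u a))
    (hinj : ∀ a, a < R * N → Function.Injective (f a))
    (husq : ∀ i e, 0 < e → i + 2 * e ≤ R * N → ∃ j, j < e ∧ u (i + j) ≠ u (i + e + j))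
    (htraj : ∀ T β v, Traj k T β v → (∀ t, t < T → v t ≤ R ∧ FailB N m f (β t) (τ (v t))) →
      False)
    (h : SqPath n (R * N) f p) : False := by
  have hMpos : 0 < M := by
    rw [hM]; positivity
  have hN : 0 < N := by omega
  have hpos := h.pos
  by_cases hs : ∃ i, i < n ∧ |((p (n + i)).1 : ℤ) - (p i).1| < N
  · obtain ⟨i, hi, hlt⟩ := hs
    have hc := shift_const hMpos hNM h hcl hi _ hlt rfl
    set δ := ((p (n + i)).1 : ℤ) - (p i).1 with hδ
    rcases le_total 0 δ with hδ0 | hδ0
    · rw [abs_of_nonneg hδ0] at hlt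
      refine short hN h hcl hinj husq δ.toNat (by omega) (fun j hj => ?_)
      have := hc j hj
      omega
    · rw [abs_of_nonpos hδ0] at hlt
      refine short hN h.rev hcl hinj husq (-δ).toNat (by omega) (fun j hj => ?_)
      have := hc (n - 1 - j) (by omega)
      have e1 : n + (n - 1 - j) = 2 * n - 1 - j := by omega
      have e2 : 2 * n - 1 - (n + j) = n - 1 - j := by omega
      rw [e1] at this
      show (p (2 * n - 1 - (n + j))).1 = (p (2 * n - 1 - j)).1 + (-δ).toNat
      rw [e2]
      omega
  · push Not at hs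
    -- the sign is constant
    have hsign : (∀ j, j < n → (p j).1 + N ≤ (p (n + j)).1) ∨
        (∀ j, j < n → (p (n + j)).1 + N ≤ (p j).1) := by
      have h0 := hs 0 hpos
      rw [le_abs] at h0
      have hN3 : 3 ≤ N := by omega
      rcases h0 with h0 | h0
      · left
        intro j
        induction j with
        | zero => intro _; simp only [add_zero] at h0 ⊢; omega
        | succ j ih =>
          intro hj
          have a1 := ih (by omega)
          have a2 := hs (j + 1) hj
          have a3 := h.step j (by omega)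
          have a4 := h.step (n + j) (by omega)
          have e : n + (j + 1) = n + j + 1 := by omega
          rw [e] at a2 ⊢
          rw [le_abs] at a2
          omega
      · right
        intro j
        induction j with
        | zero => intro _; simp only [add_zero] at h0 ⊢; omega
        | succ j ih =>
          intro hj
          have a1 := ih (by omega)
          have a2 := hs (j + 1) hj
          have a3 := h.step j (by omega)
          have a4 := h.step (n + j) (by omega)
          have e : n + (j + 1) = n + j + 1 := by omega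
          rw [e] at a2 ⊢
          rw [le_abs] at a2
          omega
    rcases hsign with hs1 | hs1
    · obtain ⟨T, β, v, hT, hF⟩ := long hk hm hM hNM h hcl hs1
      exact htraj T β v hT hF
    · obtain ⟨T, β, v, hT, hF⟩ := long hk hm hM hNM h.rev hcl (fun j hj => by
        have := hs1 (n - 1 - j) (by omega)
        have e1 : n + (n - 1 - j) = 2 * n - 1 - j := by omega
        have e2 : 2 * n - 1 - (n + j) = n - 1 - j := by omega
        rw [e1] at this
        show (p (2 * n - 1 - j)).1 + N ≤ (p (2 * n - 1 - (n + j))).1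
        rw [e2]
        exact this)
      exact htraj T β v hT hF

end long

end Pool.Agent.H205R2.NR
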