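import Mathlib
import Pool.Agent.H205R2.NR.Det

set_option autoImplicit false

/-! Union bound over coarse trajectories. -/

namespace Pool.Agent.H205R2.NR

open Finset Classical

/-- decoding of a word of steps -/
def dec {n : ℕ} (z0 : ℕ) (w : Fin n → Fin 7) (s : ℕ) : ℕ :=
  z0 + (∑ r ∈ range s, if h : r < n then ((w ⟨r, h⟩ : Fin 7) : ℕ) else 0) - 3 * s

lemma enc (n : ℕ) (z : ℕ → ℕ) (hz : ∀ s, s + 1 < n → Cl (z s) (z (s + 1))) :
    ∃ w : Fin n → Fin 7, ∀ s, s < n → dec (z 0) w s = z s := by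
  refine ⟨fun r => if h : (r : ℕ) + 1 < n then ⟨z (r + 1) + 3 - z r, by
    have := hz r h
    unfold Cl at this
    omega⟩ else 0, ?_⟩
  have key : ∀ s, s < n → z s + 3 * s = z 0 + (∑ r ∈ range s, if h : r < n then
      (((fun r : Fin n => if h : (r : ℕ) + 1 < n then (⟨z (r + 1) + 3 - z r, by
    have := hz r h
    unfold Cl at this
    omega⟩ : Fin 7) else 0) ⟨r, h⟩ : Fin 7) : ℕ) else 0) := by
    intro s
    induction s with
    | zero => intro _; simp
    | succ s ih =>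
      intro hs
      have h1 := ih (by omega)
      rw [Finset.sum_range_succ, dif_pos (show s < n by omega)]
      simp only
      rw [dif_pos hs]
      have h2 := hz s hs
      unfold Cl at h2
      simp only at h1 ⊢
      omega
  intro s hs
  have := key s hs
  unfold dec
  omega

lemma Traj.congr {k T : ℕ} {β v β' v' : ℕ → ℕ} (h : Traj k T β v) (h1 : ∀ t, t < T → β' t = β t)
    (h2 : ∀ t, t < T → v' t = v t) : Traj k T β' v' where
  pos := h.pos
  lt := fun t ht => by rw [h1 t ht, h2 t ht]; exact h.lt t ht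
  cb := fun t ht => by rw [h1 t (by omega), h1 _ ht]; exact h.cb t ht
  cv := fun t ht => by rw [h2 t (by omega), h2 _ ht]; exact h.cv t ht
  cj := by
    have := h.pos
    rw [h1 _ (by omega), h2 _ this]; exact h.cj
  cnt := by
    have : (range T).image v' = (range T).image v :=
      Finset.image_congr (fun t ht => h2 t (by simpa using ht))
    rw [this]
    exact h.cnt

variable {X : Type} [Fintype X] [Inhabited X]

/-- one trajectory -/
lemma one_traj {R k lo i : ℕ} (P : (ℕ → X) → Prop)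
    (hP : ∀ w, lo ≤ w → ∀ ω y, P ω → P (Function.update ω w y))
    (F : ℕ → ℕ → (ℕ → X) → Prop)
    (hF : ∀ b w w', b + 2 ≤ w → w < w' → ∀ ω y, F b w ω → F b w (Function.update ω w' y))
    (ε : ℝ) (hε0 : 0 ≤ ε) (hε : ε ≤ ((1 / 2) ^ 26) ^ (12 * k))
    (hG : ∀ b w, b + 2 ≤ w → ∀ ω, num (fun y => F b w (Function.update ω w y)) ≤
      ε * Fintype.card X)
    (hi : i < R) {T : ℕ} {β v : ℕ → ℕ} (hT : Traj k T β v)
    (hr : ∀ t, t < T → lo ≤ β t ∧ v t ≤ i) :
    cnt R (fun ω => P ω ∧ ∀ t, t < T → F (β t) (v t) ω) ≤ ((1 / 2) ^ 26) ^ T * cnt R P := by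
  set V := (range T).image v with hV
  have hpick : ∀ w, w ∈ V → ∃ t, t < T ∧ v t = w := by
    intro w hw
    rw [hV, Finset.mem_image] at hw
    obtain ⟨t, ht, e⟩ := hw
    exact ⟨t, Finset.mem_range.1 ht, e⟩
  choose! g hg1 hg2 using hpick
  have hb : ∀ w ∈ V, β (g w) + 2 ≤ w := by
    intro w hw
    have := hT.lt (g w) (hg1 w hw)
    rwa [hg2 w hw] at this
  have h1 : cnt R (fun ω => P ω ∧ ∀ t, t < T → F (β t) (v t) ω) ≤
      cnt R (fun ω => P ω ∧ ∀ w ∈ V, F (β (g w)) w ω) := by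
    refine cnt_mono (fun ω h => ⟨h.1, fun w hw => ?_⟩)
    have := h.2 (g w) (hg1 w hw)
    rwa [hg2 w hw] at this
  have h2 := chain (R := R) P ε hε0 (fun w ω => F (β (g w)) w ω) V
    (fun w hw => by
      have := (hr (g w) (hg1 w hw)).2
      rw [hg2 w hw] at this
      omega)
    (fun w hw ω y h => by
      have h3 := (hr (g w) (hg1 w hw)).1
      have h4 := hb w hw
      exact hP w (by omega) ω y h)
    (fun w hw w' _ hlt ω y h => hF _ w w' (hb w hw) hlt ω y h)
    (fun w hw ω => hG _ w (hb w hw) ω)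
  have h3 : ε ^ V.card ≤ ((1 / 2 : ℝ) ^ 26) ^ T := by
    calc ε ^ V.card ≤ (((1 / 2 : ℝ) ^ 26) ^ (12 * k)) ^ V.card := pow_le_pow_left₀ hε0 hε _
      _ = ((1 / 2 : ℝ) ^ 26) ^ (12 * k * V.card) := by rw [← pow_mul]
      _ ≤ ((1 / 2 : ℝ) ^ 26) ^ T := by
          refine pow_le_pow_of_le_one (by positivity) (by norm_num) ?_
          exact hT.cnt
  refine h1.trans (h2.trans ?_)
  exact mul_le_mul_of_nonneg_right h3 (cnt_nonneg _)

lemma sum_half (n : ℕ) : ∑ T ∈ range n, (1 / 2 : ℝ) ^ (T + 1) ≤ 1 := by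
  have : ∑ T ∈ range n, (1 / 2 : ℝ) ^ (T + 1) = 1 - (1 / 2) ^ n := by
    induction n with
    | zero => simp
    | succ n ih => rw [Finset.sum_range_succ, ih, pow_succ]; ring
  rw [this]
  have : (0 : ℝ) ≤ (1 / 2) ^ n := by positivity
  linarith

/-- numeric estimate for one length -/
lemma num_est (d T : ℕ) (hd : d ≤ 6 * (T + 1)) :
    ((d + 1 : ℕ) : ℝ) * (7 : ℝ) ^ (2 * (T + 1)) * ((1 / 2) ^ 26) ^ (T + 1) ≤
      (1 / 2) ^ (T + 1) * ((1 / 2) * (1 / 4) ^ (d + 1)) := by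
  have a1 : ((d + 1 : ℕ) : ℝ) ≤ (2 : ℝ) ^ (3 * (T + 1)) := by
    have e1 : ∀ T : ℕ, 6 * (T + 1) + 1 ≤ 8 ^ (T + 1) := by
      intro T
      induction T with
      | zero => norm_num
      | succ T ih => rw [pow_succ]; omega
    have e2 : d + 1 ≤ 8 ^ (T + 1) := by
      have := e1 T
      omega
    have e3 : ((d + 1 : ℕ) : ℝ) ≤ ((8 ^ (T + 1) : ℕ) : ℝ) := by exact_mod_cast e2
    calc ((d + 1 : ℕ) : ℝ) ≤ ((8 ^ (T + 1) : ℕ) : ℝ) := e3
      _ = (2 : ℝ) ^ (3 * (T + 1)) := by push_cast; rw [pow_mul]; norm_num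
  have a2 : (7 : ℝ) ^ (2 * (T + 1)) ≤ (2 : ℝ) ^ (6 * (T + 1)) := by
    rw [pow_mul, pow_mul]
    exact pow_le_pow_left₀ (by norm_num) (by norm_num) _
  have a3 : ((1 / 2 : ℝ) ^ 26) ^ (T + 1) = (1 / 2) ^ (9 * (T + 1)) * (1 / 2) ^ (17 * (T + 1)) := by
    rw [← pow_mul, ← pow_add]
    congr 1
    ring
  have a4 : (2 : ℝ) ^ (3 * (T + 1)) * (2 : ℝ) ^ (6 * (T + 1)) * (1 / 2) ^ (9 * (T + 1)) = 1 := by
    rw [← pow_add, show 3 * (T + 1) + 6 * (T + 1) = 9 * (T + 1) by ring, ← mul_pow]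
    norm_num
  have a5 : (1 / 2 : ℝ) ^ (17 * (T + 1)) ≤ (1 / 2) ^ (T + 1) * ((1 / 2) * (1 / 4) ^ (d + 1)) := by
    have : (1 / 2 : ℝ) ^ (T + 1) * ((1 / 2) * (1 / 4) ^ (d + 1)) =
        (1 / 2) ^ ((T + 1) + (1 + 2 * (d + 1))) := by
      rw [show (1 / 4 : ℝ) = (1 / 2) ^ 2 by norm_num, ← pow_mul, pow_add (1 / 2 : ℝ) (T + 1),
        pow_add (1 / 2 : ℝ) 1, pow_one]
    rw [this]
    exact pow_le_pow_of_le_one (by norm_num) (by norm_num) (by omega)
  calc ((d + 1 : ℕ) : ℝ) * (7 : ℝ) ^ (2 * (T + 1)) * ((1 / 2) ^ 26) ^ (T + 1)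
      ≤ (2 : ℝ) ^ (3 * (T + 1)) * (2 : ℝ) ^ (6 * (T + 1)) * ((1 / 2) ^ 26) ^ (T + 1) := by gcongr
    _ = ((2 : ℝ) ^ (3 * (T + 1)) * (2 : ℝ) ^ (6 * (T + 1)) * (1 / 2) ^ (9 * (T + 1))) *
        (1 / 2) ^ (17 * (T + 1)) := by rw [a3]; ring
    _ = (1 / 2) ^ (17 * (T + 1)) := by rw [a4, one_mul]
    _ ≤ _ := a5

/-- all trajectories with a given range -/
theorem traj_bound {R k lo i : ℕ} (P : (ℕ → X) → Prop)
    (hP : ∀ w, lo ≤ w → ∀ ω y, P ω → P (Function.update ω w y))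
    (F : ℕ → ℕ → (ℕ → X) → Prop)
    (hF : ∀ b w w', b + 2 ≤ w → w < w' → ∀ ω y, F b w ω → F b w (Function.update ω w' y))
    (ε : ℝ) (hε0 : 0 ≤ ε) (hε : ε ≤ ((1 / 2) ^ 26) ^ (12 * k))
    (hG : ∀ b w, b + 2 ≤ w → ∀ ω, num (fun y => F b w (Function.update ω w y)) ≤
      ε * Fintype.card X)
    (hi : i < R) (hlo : lo ≤ i) :
    cnt R (fun ω => P ω ∧ ∃ T β v, Traj k T β v ∧ (∀ t, t < T → lo ≤ β t ∧ v t ≤ i) ∧
      i ≤ lo + 6 * T ∧ ∀ t, t < T → F (β t) (v t) ω) ≤
      (1 / 2) * (1 / 4) ^ (i - lo + 1) * cnt R P := by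
  set Tm := 12 * k * (i + 1) with hTm
  -- the encoded events
  let E : (T : ℕ) → ℕ × (Fin (2 * (T + 1)) → Fin 7) → (ℕ → X) → Prop := fun T q ω =>
    P ω ∧ (Traj k (T + 1) (fun t => dec q.1 q.2 t) (fun t => dec q.1 q.2 (T + 1 + t)) ∧
      ∀ t, t < T + 1 → lo ≤ dec q.1 q.2 t ∧ dec q.1 q.2 (T + 1 + t) ≤ i) ∧
      ∀ t, t < T + 1 → F (dec q.1 q.2 t) (dec q.1 q.2 (T + 1 + t)) ω
  let I : (T : ℕ) → Finset (ℕ × (Fin (2 * (T + 1)) → Fin 7)) := fun T => Finset.Icc lo i ×ˢ univ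
  have hE : ∀ T q, cnt R (E T q) ≤ ((1 / 2) ^ 26) ^ (T + 1) * cnt R P := by
    intro T q
    by_cases hq : Traj k (T + 1) (fun t => dec q.1 q.2 t) (fun t => dec q.1 q.2 (T + 1 + t)) ∧
      ∀ t, t < T + 1 → lo ≤ dec q.1 q.2 t ∧ dec q.1 q.2 (T + 1 + t) ≤ i
    · have := one_traj P hP F hF ε hε0 hε hG hi hq.1 hq.2
      refine le_trans (cnt_mono (fun ω h => ?_)) this
      exact ⟨h.1, h.2.2⟩
    · have : cnt R (E T q) = 0 := by
        rw [cnt_eq (E T q) ∅]
        · simp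
        · intro ω
          simp only [Finset.notMem_empty, false_iff]
          exact fun h => hq h.2.1
      rw [this]
      exact mul_nonneg (by positivity) (cnt_nonneg _)
  have hcover : cnt R (fun ω => P ω ∧ ∃ T β v, Traj k T β v ∧
      (∀ t, t < T → lo ≤ β t ∧ v t ≤ i) ∧
      i ≤ lo + 6 * T ∧ ∀ t, t < T → F (β t) (v t) ω) ≤
      cnt R (fun ω => ∃ T ∈ (range Tm).filter (fun T => i ≤ lo + 6 * (T + 1)),
        ∃ q ∈ I T, E T q ω) := by
    refine cnt_mono (fun ω h => ?_)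
    obtain ⟨hPω, T, β, v, hT, hr, hsp, hFω⟩ := h
    have hpos := hT.pos
    obtain ⟨T', rfl⟩ : ∃ T', T = T' + 1 := ⟨T - 1, by omega⟩
    refine ⟨T', ?_, ?_⟩
    · rw [Finset.mem_filter, Finset.mem_range]
      refine ⟨?_, hsp⟩
      have h1 := hT.cnt
      have h2 : ((range (T' + 1)).image v).card ≤ i + 1 := by
        have : (range (T' + 1)).image v ⊆ range (i + 1) := by
          intro x hx
          rw [Finset.mem_image] at hx
          obtain ⟨t, ht, rfl⟩ := hx
          rw [Finset.mem_range] at ht ⊢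
          have := (hr t ht).2
          omega
        simpa using Finset.card_le_card this
      have h3 : 12 * k * ((range (T' + 1)).image v).card ≤ 12 * k * (i + 1) :=
        Nat.mul_le_mul_left _ h2
      omega
    · set z : ℕ → ℕ := fun s => if s < T' + 1 then β s else v (s - (T' + 1)) with hz
      have hzc : ∀ s, s + 1 < 2 * (T' + 1) → Cl (z s) (z (s + 1)) := by
        intro s hs
        rcases Nat.lt_trichotomy (s + 1) (T' + 1) with hc | hc | hc
        · simp only [hz]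
          rw [if_pos (by omega), if_pos hc]
          exact hT.cb s hc
        · simp only [hz]
          rw [if_pos (by omega), if_neg (by omega)]
          have e1 : s + 1 - (T' + 1) = 0 := by omega
          have e2 : s = T' + 1 - 1 := by omega
          rw [e1, e2]
          exact hT.cj
        · simp only [hz]
          rw [if_neg (by omega), if_neg (by omega)]
          have e1 : s + 1 - (T' + 1) = s - (T' + 1) + 1 := by omega
          rw [e1]
          exact hT.cv _ (by omega)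
      obtain ⟨w, hw⟩ := enc (2 * (T' + 1)) z hzc
      have d1 : ∀ t, t < T' + 1 → dec (z 0) w t = β t := by
        intro t ht
        rw [hw t (by omega)]
        simp only [hz]
        rw [if_pos ht]
      have d2 : ∀ t, t < T' + 1 → dec (z 0) w (T' + 1 + t) = v t := by
        intro t ht
        rw [hw _ (by omega)]
        simp only [hz]
        rw [if_neg (by omega)]
        congr 1
        omega
      refine ⟨(z 0, w), ?_, hPω, ⟨hT.congr d1 d2, ?_⟩, ?_⟩
      · simp only [I, Finset.mem_product, Finset.mem_univ, and_true, Finset.mem_Icc]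
        have e0 : z 0 = β 0 := by
          simp only [hz]
          rw [if_pos (by omega)]
        rw [e0]
        have := hr 0 (by omega)
        have := hT.lt 0 (by omega)
        omega
      · intro t ht
        simp only
        rw [d1 t ht, d2 t ht]
        exact hr t ht
      · intro t ht
        simp only
        rw [d1 t ht, d2 t ht]
        exact hFω t ht
  refine hcover.trans ?_
  refine (cnt_exists _ _).trans ?_
  have hT : ∀ T ∈ (range Tm).filter (fun T => i ≤ lo + 6 * (T + 1)),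
      cnt R (fun ω => ∃ q ∈ I T, E T q ω) ≤
        (1 / 2) ^ (T + 1) * (((1 / 2) * (1 / 4) ^ (i - lo + 1)) * cnt R P) := by
    intro T hT
    rw [Finset.mem_filter] at hT
    refine (cnt_exists _ _).trans ?_
    calc ∑ q ∈ I T, cnt R (E T q) ≤ ∑ q ∈ I T, ((1 / 2) ^ 26) ^ (T + 1) * cnt R P :=
          Finset.sum_le_sum (fun q _ => hE T q)
      _ = ((i - lo + 1 : ℕ) : ℝ) * (7 : ℝ) ^ (2 * (T + 1)) *
          ((1 / 2) ^ 26) ^ (T + 1) * cnt R P := by
          rw [Finset.sum_const, nsmul_eq_mul]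
          have : (I T).card = (i - lo + 1) * 7 ^ (2 * (T + 1)) := by
            simp only [I, Finset.card_product, Nat.card_Icc, Finset.card_univ, Fintype.card_fun,
              Fintype.card_fin]
            congr 1
            omega
          rw [this]
          push_cast
          ring
      _ ≤ ((1 / 2) ^ (T + 1) * ((1 / 2) * (1 / 4) ^ (i - lo + 1))) * cnt R P := by
          refine mul_le_mul_of_nonneg_right ?_ (cnt_nonneg _)
          exact num_est (i - lo) T (by omega)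
      _ = _ := by ring
  refine (Finset.sum_le_sum hT).trans ?_
  rw [← Finset.sum_mul]
  have h5 : ∑ T ∈ (range Tm).filter (fun T => i ≤ lo + 6 * (T + 1)), (1 / 2 : ℝ) ^ (T + 1) ≤ 1 := by
    refine (Finset.sum_le_sum_of_subset_of_nonneg (Finset.filter_subset _ _)
      (fun T _ _ => by positivity)).trans (sum_half Tm)
  have h6 : 0 ≤ ((1 / 2 : ℝ) * (1 / 4) ^ (i - lo + 1)) * cnt R P :=
    mul_nonneg (by positivity) (cnt_nonneg _)
  calc _ ≤ 1 * (((1 / 2 : ℝ) * (1 / 4) ^ (i - lo + 1)) * cnt R P) :=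
        mul_le_mul_of_nonneg_right h5 h6
    _ = _ := by ring

end Pool.Agent.H205R2.NR
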