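import Mathlib
import Pool.Agent.H205R2.NR.TrajBound
import Pool.Agent.H205R2.NR.SqFree

set_option autoImplicit false

/-! The core theorem for a finite set of colours and finitely many columns. -/

namespace Pool.Agent.H205R2.NR

open Finset Classical

variable {C : Type} {k : ℕ}

/-- all lists of block `b` have many colours of the right class -/
def G1 (L : ℕ → Fin k → Finset C) (u : ℕ → Fin 16) (N h b : ℕ) (σ : C → Lt) : Prop :=
  ∀ a, b * N ≤ a → a < (b + 1) * N → ∀ j,
    200 * (200 * h) ≤ ((L a j).filter (fun x => σ x = some (ty u a))).card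

/-- the same for two classifications -/
def G2 (L : ℕ → Fin k → Finset C) (u : ℕ → Fin 16) (N h b : ℕ) (σ σ' : C → Lt) : Prop :=
  ∀ a, b * N ≤ a → a < (b + 1) * N → ∀ j,
    200 * h ≤ (((L a j).filter (fun x => σ x = some (ty u a))).filter
      (fun x => σ' x = some (ty u a))).card

/-- the error bound -/
noncomputable def eb (N k h : ℕ) : ℝ := (((N + 1) * (k + 1) : ℕ) : ℝ) * (1 / 2) ^ h

variable [Fintype C]

lemma exists_sel {N m h : ℕ} (hN : 0 < N) (hkh : 2 * k ≤ h) (hm : 512 ^ k * h ≤ m) [Nonempty C]
    (L : ℕ → Fin k → Finset C) (u : ℕ → Fin 16) (b : ℕ) (σ σ' : C → Lt) :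
    ∃ s : ℕ → Fin k → C, G2 L u N h b σ σ' →
      (∀ a, b * N ≤ a → a < (b + 1) * N → ∀ j, s a j ∈ L a j ∧ σ (s a j) = some (ty u a) ∧
        σ' (s a j) = some (ty u a)) ∧
      (∀ a, b * N ≤ a → a < (b + 1) * N → Function.Injective (s a)) ∧
      num (X := C → Lt) (fun σ'' => FailB N m s b σ'') ≤ eb N k h * Fintype.card (C → Lt) := by
  by_cases hG : G2 L u N h b σ σ'
  · have hsub : ∀ (i : Fin N) (j : Fin k), ∃ t : Finset C,
        t ⊆ (((L (b * N + i) j).filter (fun x => σ x = some (ty u (b * N + i)))).filter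
          (fun x => σ' x = some (ty u (b * N + i)))) ∧ t.card = 200 * h := by
      intro i j
      refine Finset.exists_subset_card_eq ?_
      refine hG (b * N + i) (by omega) ?_ j
      have := i.2
      calc b * N + (i : ℕ) < b * N + N := by omega
        _ = (b + 1) * N := by ring
    choose Λ hΛ1 hΛ2 using hsub
    obtain ⟨f, hf1, hf2, hf3⟩ := diverse hkh Λ hΛ2 hm
    have hblk : ∀ a, b * N ≤ a → a < (b + 1) * N → a - b * N < N := by
      intro a h1 h2
      have : (b + 1) * N = b * N + N := by ring
      omega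
    refine ⟨fun a j => if hh : a - b * N < N then f ⟨a - b * N, hh⟩ j else f ⟨0, hN⟩ j,
      fun _ => ⟨?_, ?_, ?_⟩⟩
    · intro a h1 h2 j
      have h3 := hblk a h1 h2
      simp only
      rw [dif_pos h3]
      have h4 := hΛ1 ⟨a - b * N, h3⟩ j (hf1 ⟨a - b * N, h3⟩ j)
      have e : b * N + (a - b * N) = a := by omega
      simp only [e] at h4
      rw [Finset.mem_filter, Finset.mem_filter] at h4
      exact ⟨h4.1.1, h4.1.2, h4.2⟩
    · intro a h1 h2
      have h3 := hblk a h1 h2
      have := hf2 ⟨a - b * N, h3⟩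
      intro j j' hjj
      simp only at hjj
      rw [dif_pos h3, dif_pos h3] at hjj
      exact this hjj
    · refine le_trans (num_mono (fun σ'' hσ => ?_)) hf3
      obtain ⟨a0, h1, h2, h3⟩ := hσ
      have e0 : (b + 1) * N = b * N + N := by ring
      refine ⟨a0 - b * N, by omega, ?_⟩
      intro i hi
      rw [mem_seg] at hi
      obtain ⟨j, hj⟩ := h3 (b * N + i) (by omega) (by omega)
      refine ⟨j, ?_⟩
      have e1 : b * N + (i : ℕ) - b * N = i := by omega
      simp only [e1] at hj
      rw [dif_pos i.2] at hj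
      exact hj
  · exact ⟨fun _ _ => Classical.arbitrary C, fun h => absurd h hG⟩

lemma num_block {N h b : ℕ} (Λ : ℕ → Fin k → Finset C) (u : ℕ → Fin 16) (h' : ℕ) (hh : h ≤ h')
    (hΛ : ∀ a, b * N ≤ a → a < (b + 1) * N → ∀ j, 200 * h' ≤ (Λ a j).card) :
    num (X := C → Lt) (fun y => ∃ a, b * N ≤ a ∧ a < (b + 1) * N ∧ ∃ j,
      ((Λ a j).filter (fun x => y x = some (ty u a))).card < h') ≤
      eb N k h * Fintype.card (C → Lt) := by
  have h1 : num (X := C → Lt) (fun y => ∃ a, b * N ≤ a ∧ a < (b + 1) * N ∧ ∃ j,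
      ((Λ a j).filter (fun x => y x = some (ty u a))).card < h') ≤
      num (X := C → Lt) (fun y => ∃ q ∈ (Finset.Ico (b * N) ((b + 1) * N)) ×ˢ
        (univ : Finset (Fin k)), ((Λ q.1 q.2).filter (fun x => y x = some (ty u q.1))).card < h') := by
    refine num_mono (fun y hy => ?_)
    obtain ⟨a, ha1, ha2, j, hj⟩ := hy
    refine ⟨(a, j), ?_, hj⟩
    rw [Finset.mem_product, Finset.mem_Ico]
    exact ⟨⟨ha1, ha2⟩, Finset.mem_univ _⟩
  refine (h1.trans (num_exists _ _)).trans ?_
  have h2 : ∀ q ∈ (Finset.Ico (b * N) ((b + 1) * N)) ×ˢ (univ : Finset (Fin k)),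
      num (X := C → Lt) (fun y => ((Λ q.1 q.2).filter (fun x => y x = some (ty u q.1))).card < h') ≤
        (1 / 2) ^ h * Fintype.card (C → Lt) := by
    intro q hq
    rw [Finset.mem_product, Finset.mem_Ico] at hq
    refine (chernoff (Λ q.1 q.2) _ h' (hΛ q.1 hq.1.1 hq.1.2 q.2)).trans ?_
    have : (1 / 2 : ℝ) ^ h' ≤ (1 / 2) ^ h := pow_le_pow_of_le_one (by norm_num) (by norm_num) hh
    gcongr
  refine (Finset.sum_le_sum h2).trans ?_
  rw [Finset.sum_const, nsmul_eq_mul, Finset.card_product, Nat.card_Ico, Finset.card_univ,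
    Fintype.card_fin]
  have e0 : (b + 1) * N - b * N = N := by
    have : (b + 1) * N = b * N + N := by ring
    omega
  rw [e0]
  unfold eb
  have h3 : N * k ≤ (N + 1) * (k + 1) := by nlinarith
  have h4 : ((N * k : ℕ) : ℝ) ≤ (((N + 1) * (k + 1) : ℕ) : ℝ) := by exact_mod_cast h3
  calc ((N * k : ℕ) : ℝ) * ((1 / 2) ^ h * Fintype.card (C → Lt)) ≤
      (((N + 1) * (k + 1) : ℕ) : ℝ) * ((1 / 2) ^ h * Fintype.card (C → Lt)) := by gcongr
    _ = _ := by ring

/-- the bad events -/
def Bad (L : ℕ → Fin k → Finset C) (u : ℕ → Fin 16) (N m h : ℕ)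
    (sel : ℕ → (C → Lt) → (C → Lt) → ℕ → Fin k → C) (lo i : ℕ) (ω : ℕ → C → Lt) : Prop :=
  (lo = i ∧ ¬ G1 L u N h i (ω i)) ∨
  (lo = i ∧ 1 ≤ i ∧ G1 L u N h (i - 1) (ω (i - 1)) ∧ ¬ G2 L u N h (i - 1) (ω (i - 1)) (ω i)) ∨
  (∃ T β v, Traj k T β v ∧ (∀ t, t < T → lo ≤ β t ∧ v t ≤ i) ∧ i ≤ lo + 6 * T ∧
    ∀ t, t < T → (G2 L u N h (β t) (ω (β t)) (ω (β t + 1)) ∧
      FailB N m (sel (β t) (ω (β t)) (ω (β t + 1))) (β t) (ω (v t))))

omit [Fintype C] in
lemma Bad.congr {L : ℕ → Fin k → Finset C} {u : ℕ → Fin 16} {N m h : ℕ}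
    {sel : ℕ → (C → Lt) → (C → Lt) → ℕ → Fin k → C} {lo i : ℕ} {ω ω' : ℕ → C → Lt}
    (hb : Bad L u N m h sel lo i ω) (he : ∀ r, r ≤ i → ω' r = ω r) :
    Bad L u N m h sel lo i ω' := by
  rcases hb with hb | hb | hb
  · left
    rw [he i le_rfl]
    exact hb
  · right; left
    rw [he i le_rfl, he (i - 1) (by omega)]
    exact hb
  · right; right
    obtain ⟨T, β, v, hT, hr, hs, hF⟩ := hb
    refine ⟨T, β, v, hT, hr, hs, fun t ht => ?_⟩
    have h1 := hr t ht
    have h2 := hT.lt t ht
    rw [he (β t) (by omega), he (β t + 1) (by omega), he (v t) h1.2]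
    exact hF t ht

/-- Core theorem. -/
theorem core {h m M N : ℕ} (hk : 0 < k) (hkh : 2 * k ≤ h) (hm : m = 512 ^ k * h)
    (hM : M = 2 * k * m) (hNM : N = 3 * M)
    (hε : eb N k h ≤ ((1 / 2) ^ 26) ^ (12 * k)) [Nonempty C] (R : ℕ)
    (L : ℕ → Fin k → Finset C) (hL : ∀ a j, 200 * (200 * (200 * h)) ≤ (L a j).card) :
    ∃ f : ℕ → Fin k → C, (∀ a, a < R * N → ∀ j, f a j ∈ L a j) ∧
      ∀ n p, ¬ SqPath n (R * N) f p := by
  have hmpos : 0 < m := by
    rw [hm]
    have : 0 < h := by omega
    positivity
  have hMpos : 0 < M := by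
    rw [hM]; positivity
  have hN : 0 < N := by omega
  obtain ⟨u, husq⟩ := exists_sqfree (R * N)
  have hsel := fun b σ σ' => exists_sel (k := k) (C := C) hN hkh (le_of_eq hm.symm) L u b σ σ'
  choose sel hsel using hsel
  have hε0 : 0 ≤ eb N k h := by unfold eb; positivity
  have hε1 : eb N k h ≤ 1 / 16 := by
    refine hε.trans ?_
    calc ((1 / 2 : ℝ) ^ 26) ^ (12 * k) ≤ ((1 / 2 : ℝ) ^ 26) ^ 1 :=
          pow_le_pow_of_le_one (by positivity) (by norm_num) (by omega)
      _ ≤ 1 / 16 := by norm_num
  have : Inhabited (C → Lt) := ⟨fun _ => none⟩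
  set Av : ℕ → (ℕ → C → Lt) → Prop := fun i ω =>
    ∀ i', i' < i → ∀ lo, lo ≤ i' → ¬ Bad L u N m h sel lo i' ω with hAv
  have hAvup : ∀ lo w, lo ≤ w → ∀ ω y, Av lo ω → Av lo (Function.update ω w y) := by
    intro lo w hlw ω y hA i' hi' lo' hlo' hbad
    refine hA i' hi' lo' hlo' (hbad.congr (fun r hr => ?_))
    rw [Function.update_of_ne (by omega)]
  obtain ⟨ω, hω⟩ : ∃ ω : ℕ → C → Lt, Av (R + 1) ω := by
    refine rosenfeld (R := R + 1) Av (Bad L u N m h sel) ?_ ?_ ?_ (fun d => (1 / 4) ^ (d + 1))
      ?_ ?_ ?_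
    · intro ω i' hi'
      omega
    · intro i _ ω hA hb i' hi'
      rcases Nat.lt_or_ge i' i with hc | hc
      · exact hA i' hc
      · have : i' = i := by omega
        subst this
        exact hb
    · intro i j hij ω hA i' hi'
      exact hA i' (by omega)
    · intro i hi lo hlo
      -- the trajectory part
      have hB3 := traj_bound (R := R + 1) (k := k) (lo := lo) (i := i) (X := C → Lt) (Av lo)
        (hAvup lo)
        (fun b w ω => G2 L u N h b (ω b) (ω (b + 1)) ∧
          FailB N m (sel b (ω b) (ω (b + 1))) b (ω w))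
        (by
          intro b w w' hbw hww ω y hF
          rw [Function.update_of_ne (show b ≠ w' by omega),
            Function.update_of_ne (show b + 1 ≠ w' by omega),
            Function.update_of_ne (show w ≠ w' by omega)]
          exact hF)
        (eb N k h) hε0 hε
        (by
          intro b w hbw ω
          have e1 : ∀ y, Function.update ω w y b = ω b := fun y =>
            Function.update_of_ne (show b ≠ w by omega) _ _
          have e2 : ∀ y, Function.update ω w y (b + 1) = ω (b + 1) := fun y =>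
            Function.update_of_ne (show b + 1 ≠ w by omega) _ _
          have e3 : ∀ y, Function.update ω w y w = y := fun y => Function.update_self _ _ _
          simp only [e1, e2, e3]
          by_cases hG : G2 L u N h b (ω b) (ω (b + 1))
          · refine le_trans (num_mono (fun y hy => hy.2)) (hsel b _ _ hG).2.2
          · have : num (fun y : C → Lt => G2 L u N h b (ω b) (ω (b + 1)) ∧
                FailB N m (sel b (ω b) (ω (b + 1))) b y) = 0 := by
              rw [num_eq _ (∅ : Finset (C → Lt))]
              · simp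
              · intro y
                simp only [Finset.notMem_empty, false_iff]
                exact fun h => hG h.1
            rw [this]
            positivity)
        hi hlo
      have hsplit : cnt (R + 1) (fun ω => Av lo ω ∧ Bad L u N m h sel lo i ω) ≤
          (cnt (R + 1) (fun ω => Av lo ω ∧ (lo = i ∧ ¬ G1 L u N h i (ω i))) +
          cnt (R + 1) (fun ω => Av lo ω ∧ (lo = i ∧ 1 ≤ i ∧ G1 L u N h (i - 1) (ω (i - 1)) ∧
            ¬ G2 L u N h (i - 1) (ω (i - 1)) (ω i)))) +
          (1 / 2) * (1 / 4) ^ (i - lo + 1) * cnt (R + 1) (Av lo) := by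
        refine le_trans ?_ (add_le_add (cnt_or _ _) hB3)
        refine le_trans ?_ (cnt_or _ _)
        refine cnt_mono (fun ω hh => ?_)
        rcases hh.2 with hb | hb | hb
        · exact Or.inl (Or.inl ⟨hh.1, hb⟩)
        · exact Or.inl (Or.inr ⟨hh.1, hb⟩)
        · exact Or.inr ⟨hh.1, hb⟩
      have hB1 : cnt (R + 1) (fun ω => Av lo ω ∧ (lo = i ∧ ¬ G1 L u N h i (ω i))) ≤
          (1 / 4) * (1 / 4) ^ (i - lo + 1) * cnt (R + 1) (Av lo) := by
        by_cases hc : lo = i
        · subst hc
          have := fiber (R := R + 1) (X := C → Lt) lo hi (Av lo)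
            (fun ω => lo = lo ∧ ¬ G1 L u N h lo (ω lo)) (hAvup lo lo le_rfl) (1 / 16)
            (by
              intro ω _
              simp only [Function.update_self, true_and]
              refine le_trans (le_trans (num_mono (fun y hy => ?_))
                (num_block (h := h) (N := N) (b := lo) L u (200 * (200 * h)) (by omega)
                  (fun a _ _ j => hL a j))) (by gcongr)
              unfold G1 at hy
              push Not at hy
              obtain ⟨a, h1, h2, j, h3⟩ := hy
              exact ⟨a, h1, h2, j, h3⟩)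
          refine this.trans (le_of_eq ?_)
          rw [Nat.sub_self]
          norm_num
        · have : cnt (R + 1) (fun ω => Av lo ω ∧ (lo = i ∧ ¬ G1 L u N h i (ω i))) = 0 := by
            rw [cnt_eq _ (∅ : Finset (Fin (R + 1) → C → Lt))]
            · simp
            · intro y
              simp only [Finset.notMem_empty, false_iff]
              exact fun h => hc h.2.1
          rw [this]
          exact mul_nonneg (by positivity) (cnt_nonneg _)
      have hB2 : cnt (R + 1) (fun ω => Av lo ω ∧ (lo = i ∧ 1 ≤ i ∧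
          G1 L u N h (i - 1) (ω (i - 1)) ∧ ¬ G2 L u N h (i - 1) (ω (i - 1)) (ω i))) ≤
          (1 / 4) * (1 / 4) ^ (i - lo + 1) * cnt (R + 1) (Av lo) := by
        by_cases hc : lo = i ∧ 1 ≤ i
        · obtain ⟨hc, h1i⟩ := hc
          subst hc
          have := fiber (R := R + 1) (X := C → Lt) lo hi (Av lo)
            (fun ω => lo = lo ∧ 1 ≤ lo ∧ G1 L u N h (lo - 1) (ω (lo - 1)) ∧
              ¬ G2 L u N h (lo - 1) (ω (lo - 1)) (ω lo)) (hAvup lo lo le_rfl) (1 / 16)
            (by
              intro ω _
              have e1 : ∀ y, Function.update ω lo y (lo - 1) = ω (lo - 1) := fun y =>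
                Function.update_of_ne (show lo - 1 ≠ lo by omega) _ _
              simp only [Function.update_self, true_and, e1]
              by_cases hG : G1 L u N h (lo - 1) (ω (lo - 1))
              · refine le_trans (le_trans (num_mono (fun y hy => ?_))
                  (num_block (h := h) (N := N) (b := lo - 1)
                    (fun a j => (L a j).filter (fun x => ω (lo - 1) x = some (ty u a))) u
                    (200 * h) (by omega) (fun a h1 h2 j => hG a h1 h2 j))) (by gcongr)
                have hy2 := hy.2.2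
                unfold G2 at hy2
                push Not at hy2
                obtain ⟨a, h1, h2, j, h3⟩ := hy2
                exact ⟨a, h1, h2, j, h3⟩
              · have : num (fun y : C → Lt => 1 ≤ lo ∧ G1 L u N h (lo - 1) (ω (lo - 1)) ∧
                    ¬ G2 L u N h (lo - 1) (ω (lo - 1)) y) = 0 := by
                  rw [num_eq _ (∅ : Finset (C → Lt))]
                  · simp
                  · intro y
                    simp only [Finset.notMem_empty, false_iff]
                    exact fun h => hG h.2.1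
                rw [this]
                positivity)
          refine this.trans (le_of_eq ?_)
          rw [Nat.sub_self]
          norm_num
        · have : cnt (R + 1) (fun ω => Av lo ω ∧ (lo = i ∧ 1 ≤ i ∧
              G1 L u N h (i - 1) (ω (i - 1)) ∧ ¬ G2 L u N h (i - 1) (ω (i - 1)) (ω i))) = 0 := by
            rw [cnt_eq _ (∅ : Finset (Fin (R + 1) → C → Lt))]
            · simp
            · intro y
              simp only [Finset.notMem_empty, false_iff]
              exact fun h => hc ⟨h.2.1, h.2.2.1⟩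
          rw [this]
          exact mul_nonneg (by positivity) (cnt_nonneg _)
      calc _ ≤ _ := hsplit
        _ ≤ ((1 / 4) * (1 / 4) ^ (i - lo + 1) * cnt (R + 1) (Av lo) +
            (1 / 4) * (1 / 4) ^ (i - lo + 1) * cnt (R + 1) (Av lo)) +
            (1 / 2) * (1 / 4) ^ (i - lo + 1) * cnt (R + 1) (Av lo) := by
              exact add_le_add (add_le_add hB1 hB2) le_rfl
        _ = _ := by ring
    · intro d; positivity
    · intro i
      rw [geo_half]
      have : (0 : ℝ) ≤ (1 / 2) ^ (i + 1) := by positivity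
      linarith
  -- consequences
  have hG1 : ∀ b, b ≤ R → G1 L u N h b (ω b) := by
    intro b hb
    by_contra hc
    exact hω b (by omega) b le_rfl (Or.inl ⟨rfl, hc⟩)
  have hG2 : ∀ b, b < R → G2 L u N h b (ω b) (ω (b + 1)) := by
    intro b hb
    by_contra hc
    exact hω (b + 1) (by omega) (b + 1) le_rfl (Or.inr (Or.inl ⟨rfl, by omega, hG1 b hb.le, hc⟩))
  have hdiv : ∀ a, a < R * N → a / N < R := fun a ha => (Nat.div_lt_iff_lt_mul hN).2 ha
  have hblk : ∀ a, a / N * N ≤ a ∧ a < (a / N + 1) * N := by
    intro a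
    refine ⟨Nat.div_mul_le_self _ _, ?_⟩
    have := Nat.lt_div_mul_add (a := a) hN
    calc a < a / N * N + N := this
      _ = _ := by ring
  refine ⟨fun a => sel (a / N) (ω (a / N)) (ω (a / N + 1)) a, ?_, ?_⟩
  · intro a ha j
    exact ((hsel _ _ _ (hG2 _ (hdiv a ha))).1 a (hblk a).1 (hblk a).2 j).1
  · intro n p hp
    refine det (τ := ω) (u := u) (m := m) hk hmpos hM hNM ?_ ?_ husq ?_ hp
    · intro a ha j
      exact ((hsel _ _ _ (hG2 _ (hdiv a ha))).1 a (hblk a).1 (hblk a).2 j).2
    · intro a ha
      exact (hsel _ _ _ (hG2 _ (hdiv a ha))).2.1 a (hblk a).1 (hblk a).2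
    · intro T β v hT hF
      have hpos := hT.pos
      have hne : (range T).Nonempty := Finset.nonempty_range_iff.2 (by omega)
      obtain ⟨t0, ht0, hmin⟩ := Finset.exists_min_image (range T) β hne
      obtain ⟨t1, ht1, hmax⟩ := Finset.exists_max_image (range T) v hne
      rw [Finset.mem_range] at ht0 ht1
      have c1 : ∀ d, t0 + d < T → β (t0 + d) ≤ β t0 + 3 * d := by
        intro d
        induction d with
        | zero => intro _; simp
        | succ d ih =>
          intro hd
          have := ih (by omega)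
          have h2 := hT.cb (t0 + d) (by omega)
          unfold Cl at h2
          have e : t0 + (d + 1) = t0 + d + 1 := by omega
          rw [e]
          omega
      have c2 : ∀ d, d < T → v d ≤ v 0 + 3 * d := by
        intro d
        induction d with
        | zero => intro _; simp
        | succ d ih =>
          intro hd
          have := ih (by omega)
          have h2 := hT.cv d (by omega)
          unfold Cl at h2
          omega
      have c3 := c1 (T - 1 - t0) (by omega)
      have e3 : t0 + (T - 1 - t0) = T - 1 := by omega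
      rw [e3] at c3
      have c4 := hT.cj
      unfold Cl at c4
      have c5 := c2 t1 ht1
      have hvR := (hF t1 ht1).1
      have hlt1 := hT.lt t1 ht1
      have hmin1 := hmin t1 (Finset.mem_range.2 ht1)
      refine hω (v t1) (by omega) (β t0) (by omega) (Or.inr (Or.inr ⟨T, β, v, hT, ?_, by omega,
        ?_⟩))
      · intro t ht
        exact ⟨hmin t (Finset.mem_range.2 ht), hmax t (Finset.mem_range.2 ht)⟩
      · intro t ht
        have h1 := hT.lt t ht
        have h2 := (hF t ht).1
        refine ⟨hG2 _ (by omega), ?_⟩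
        obtain ⟨a, ha1, ha2, ha3⟩ := (hF t ht).2
        refine ⟨a, ha1, ha2, fun i hi1 hi2 => ?_⟩
        obtain ⟨j, hj⟩ := ha3 i hi1 hi2
        refine ⟨j, ?_⟩
        have e : i / N = β t := by
          apply Nat.div_eq_of_lt_le
          · omega
          · omega
        simp only [e] at hj
        exact hj

end Pool.Agent.H205R2.NR
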