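import Mathlib
import Pool.Agent.H205R2.NR.Core

set_option autoImplicit false

/-! Linear bound for the nonrepetitive choice number of the blown-up infinite path. -/

namespace Pool.Agent.H205R2.NR

open Finset Classical

lemma num_param {k : ℕ} (hk : 0 < k) :
    eb (3 * (2 * k * (512 ^ k * (512 * k)))) k (512 * k) ≤ ((1 / 2) ^ 26) ^ (12 * k) := by
  have h1 : k ≤ 2 ^ k := Nat.lt_two_pow_self.le
  have h2 : k + 1 ≤ 2 ^ k := Nat.lt_two_pow_self
  have h3 : 3 * (2 * k * (512 ^ k * (512 * k))) + 1 ≤ 2 ^ (23 * k) := by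
    have a1 : 1 ≤ k ^ 2 * 512 ^ k := Nat.one_le_iff_ne_zero.2 (by positivity)
    calc 3 * (2 * k * (512 ^ k * (512 * k))) + 1 = 3072 * (k ^ 2 * 512 ^ k) + 1 := by ring
      _ ≤ 4096 * (k ^ 2 * 512 ^ k) := by omega
      _ ≤ 4096 ^ k * ((2 ^ k) ^ 2 * 512 ^ k) := by
          have : 4096 ≤ 4096 ^ k := by
            calc 4096 = 4096 ^ 1 := (pow_one _).symm
              _ ≤ 4096 ^ k := Nat.pow_le_pow_right (by norm_num) hk
          gcongr
      _ = 2 ^ (23 * k) := by
          rw [show (4096 : ℕ) = 2 ^ 12 by norm_num, show (512 : ℕ) = 2 ^ 9 by norm_num,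
            ← pow_mul, ← pow_mul, ← pow_mul, ← pow_add, ← pow_add]
          congr 1
          ring
  have h4 : (3 * (2 * k * (512 ^ k * (512 * k))) + 1) * (k + 1) ≤ 2 ^ (200 * k) := by
    calc (3 * (2 * k * (512 ^ k * (512 * k))) + 1) * (k + 1) ≤ 2 ^ (23 * k) * 2 ^ k :=
          Nat.mul_le_mul h3 h2
      _ = 2 ^ (24 * k) := by rw [← pow_add]; congr 1; ring
      _ ≤ 2 ^ (200 * k) := Nat.pow_le_pow_right (by norm_num) (by omega)
  have h5 : (((3 * (2 * k * (512 ^ k * (512 * k))) + 1) * (k + 1) : ℕ) : ℝ) ≤ 2 ^ (200 * k) := by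
    exact_mod_cast h4
  unfold eb
  calc (((3 * (2 * k * (512 ^ k * (512 * k))) + 1) * (k + 1) : ℕ) : ℝ) * (1 / 2) ^ (512 * k)
      ≤ 2 ^ (200 * k) * (1 / 2) ^ (512 * k) := by gcongr
    _ = ((1 / 2) ^ 26) ^ (12 * k) := by
        rw [show 512 * k = 200 * k + 26 * (12 * k) by ring, pow_add, ← mul_assoc, ← mul_pow,
          pow_mul (1 / 2 : ℝ) 26]
        norm_num

/-- finite version for lists of natural numbers -/
lemma finite_version {k : ℕ} (hk : 0 < k) (R : ℕ) (L : ℕ × Fin k → Finset ℕ)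
    (hL : ∀ v, 4096000000 * k ≤ (L v).card) :
    ∃ f : ℕ × Fin k → ℕ, (∀ v, f v ∈ L v) ∧
      ∀ n p, ¬ SqPath n R (fun a j => f (a, j)) p := by
  have hne : ∀ v, (L v).Nonempty := by
    intro v
    rw [← Finset.card_pos]
    have := hL v
    omega
  set N := 3 * (2 * k * (512 ^ k * (512 * k))) with hN
  have hNpos : 0 < N := by rw [hN]; positivity
  -- a bound for the colours
  set q := ((range (R * N + 1)) ×ˢ (univ : Finset (Fin k))).sup (fun p => (L p).sup id) with hq
  have hqb : ∀ a j, a ≤ R * N → ∀ x ∈ L (a, j), x ≤ q := by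
    intro a j ha x hx
    calc x ≤ (L (a, j)).sup id := Finset.le_sup (f := id) hx
      _ ≤ q := Finset.le_sup (f := fun p => (L p).sup id) (by
          rw [Finset.mem_product, Finset.mem_range]
          exact ⟨by simp only; omega, Finset.mem_univ _⟩)
  set L' : ℕ → Fin k → Finset (Fin (q + 1)) := fun a j =>
    univ.filter (fun c : Fin (q + 1) => (c : ℕ) ∈ L (if a < R * N then a else 0, j)) with hL'
  have hcard : ∀ a j, 200 * (200 * (200 * (512 * k))) ≤ (L' a j).card := by
    intro a j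
    have h1 : (L' a j).map Fin.valEmbedding = L (if a < R * N then a else 0, j) := by
      ext x
      rw [Finset.mem_map]
      constructor
      · rintro ⟨c, hc, rfl⟩
        rw [hL', Finset.mem_filter] at hc
        exact hc.2
      · intro hx
        have hxq : x ≤ q := hqb _ j (by split_ifs <;> omega) x hx
        refine ⟨⟨x, by omega⟩, ?_, rfl⟩
        rw [hL', Finset.mem_filter]
        exact ⟨Finset.mem_univ _, hx⟩
    rw [← Finset.card_map Fin.valEmbedding, h1]
    have := hL (if a < R * N then a else 0, j)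
    omega
  obtain ⟨f', hf1, hf2⟩ := core (k := k) (C := Fin (q + 1)) (h := 512 * k) (m := 512 ^ k * (512 * k))
    (M := 2 * k * (512 ^ k * (512 * k))) (N := N) hk (by omega) rfl rfl rfl (num_param hk) R L'
    hcard
  refine ⟨fun v => if v.1 < R * N then ((f' v.1 v.2 : Fin (q + 1)) : ℕ) else (hne v).choose, ?_, ?_⟩
  · intro v
    by_cases hv : v.1 < R * N
    · simp only
      rw [if_pos hv]
      have := hf1 v.1 hv v.2
      rw [hL', Finset.mem_filter] at this
      have h2 := this.2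
      rw [if_pos hv] at h2
      exact h2
    · simp only
      rw [if_neg hv]
      exact (hne v).choose_spec
  · intro n p hp
    have hRN : R ≤ R * N := Nat.le_mul_of_pos_right _ hNpos
    refine hf2 n p ⟨hp.pos, hp.inj, hp.step, fun i hi => (hp.bd i hi).trans_le hRN, ?_⟩
    intro i hi
    have h1 := hp.sq i hi
    have b1 := (hp.bd i (by omega)).trans_le hRN
    have b2 := (hp.bd (n + i) (by omega)).trans_le hRN
    simp only at h1
    rw [if_pos b1, if_pos b2] at h1
    exact Fin.ext h1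

/-- Main theorem. -/
theorem main : ∃ c : ℕ, ∀ k : ℕ, ∀ L : ℕ × Fin k → Finset ℕ, (∀ v, c * k ≤ (L v).card) →
    ∃ f : ℕ × Fin k → ℕ, (∀ v, f v ∈ L v) ∧
      ∀ n : ℕ, 0 < n → ∀ v : ℕ → ℕ × Fin k,
        (∀ i j, i < 2 * n → j < 2 * n → v i = v j → i = j) →
        (∀ i, i + 1 < 2 * n →
          ((v i).1 + 1 = (v (i + 1)).1 ∨ (v (i + 1)).1 + 1 = (v i).1 ∨
            ((v i).1 = (v (i + 1)).1 ∧ (v i).2 ≠ (v (i + 1)).2))) →
        ¬ (∀ i, i < n → f (v i) = f (v (i + n))) := by
  refine ⟨4096000000, fun k L hL => ?_⟩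
  rcases Nat.eq_zero_or_pos k with hk | hk
  · subst hk
    exact ⟨fun _ => 0, fun v => v.2.elim0, fun n _ v _ _ _ => (v 0).2.elim0⟩
  · have hfin := fun R => finite_version hk R L hL
    choose F hF1 hF2 using hfin
    have hlim : ∀ v, ∃ x, x ∈ L v ∧ {R | F R v = x} ∈ Filter.hyperfilter ℕ := by
      intro v
      have h1 : (⋃ x ∈ (↑(L v) : Set ℕ), {R | F R v = x}) ∈ Filter.hyperfilter ℕ := by
        have : (⋃ x ∈ (↑(L v) : Set ℕ), {R | F R v = x}) = Set.univ := by
          ext R
          simp only [Set.mem_iUnion, Set.mem_univ, iff_true]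
          exact ⟨F R v, by exact_mod_cast hF1 R v, rfl⟩
        rw [this]
        exact Filter.univ_mem
      rw [Ultrafilter.finite_biUnion_mem_iff (Finset.finite_toSet _)] at h1
      obtain ⟨x, hx, h2⟩ := h1
      exact ⟨x, by exact_mod_cast hx, h2⟩
    choose f hf1 hf2 using hlim
    refine ⟨f, hf1, ?_⟩
    intro n hn v hinj hstep hsq
    set B := (range (2 * n)).sup (fun i => (v i).1) + 1 with hB
    have h1 : (⋂ i ∈ range (2 * n), {R | F R (v i) = f (v i)}) ∈
        (Filter.hyperfilter ℕ : Filter ℕ) := by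
      rw [Filter.biInter_finset_mem]
      intro i _
      exact hf2 (v i)
    have h2 : {R | B ≤ R} ∈ (Filter.hyperfilter ℕ : Filter ℕ) := by
      have : {R | B ≤ R} ∈ (Filter.atTop : Filter ℕ) := Filter.Ici_mem_atTop B
      exact Nat.hyperfilter_le_atTop this
    obtain ⟨R, hR⟩ := Filter.nonempty_of_mem (Filter.inter_mem h1 h2)
    have hR1 : ∀ i, i < 2 * n → F R (v i) = f (v i) := by
      intro i hi
      have := hR.1
      rw [Set.mem_iInter₂] at this
      exact this i (Finset.mem_range.2 hi)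
    have hR2 : B ≤ R := hR.2
    refine hF2 R n v ⟨hn, hinj, ?_, ?_, ?_⟩
    · intro i hi
      rcases hstep i hi with h | h | h <;> omega
    · intro i hi
      have : (v i).1 ≤ (range (2 * n)).sup (fun i => (v i).1) :=
        Finset.le_sup (f := fun i => (v i).1) (Finset.mem_range.2 hi)
      omega
    · intro i hi
      show F R (v i) = F R (v (n + i))
      rw [hR1 i (by omega), hR1 (n + i) (by omega), hsq i hi, add_comm]

end Pool.Agent.H205R2.NR
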